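import Mathlib

open MeasureTheory Set Filter Topology

namespace Pool.Agent.Results.MP_abad15_an.HilbertWLP

universe u

/-- `x` is the Riemann integral of `f : [0,1] → X`. -/
def HasRiemannIntegral {X : Type u} [NormedAddCommGroup X] [NormedSpace ℝ X]
    (f : Icc (0:ℝ) 1 → X) (x : X) : Prop :=
  ∀ ε : ℝ, 0 < ε → ∃ δ : ℝ, 0 < δ ∧
    ∀ (p : ℕ) (a b : Fin p → ℝ) (t : Fin p → Icc (0:ℝ) 1),
      (∀ j, a j ≤ b j) → (∀ j, b j - a j < δ) →
      (∀ i j, i ≠ j → Disjoint (Ioo (a i) (b i)) (Ioo (a j) (b j))) →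
      (⋃ j, Icc (a j) (b j)) = Icc (0:ℝ) 1 →
      (∀ j, (t j : ℝ) ∈ Icc (a j) (b j)) →
      ‖∑ j, (b j - a j) • f (t j) - x‖ < ε

/-- Riemann integrability. -/
def RiemannIntegrable {X : Type u} [NormedAddCommGroup X] [NormedSpace ℝ X]
    (f : Icc (0:ℝ) 1 → X) : Prop := ∃ x, HasRiemannIntegral f x

/-- Continuity at `t` for the weak topology of `X`. -/
def WeaklyContinuousAt {X : Type u} [NormedAddCommGroup X] [NormedSpace ℝ X]
    (f : Icc (0:ℝ) 1 → X) (t : Icc (0:ℝ) 1) : Prop :=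
  ContinuousAt (fun s => toWeakSpace ℝ X (f s)) t

/-- The weak Lebesgue property. -/
def WeakLebesgueProperty (X : Type u) [NormedAddCommGroup X] [NormedSpace ℝ X] : Prop :=
  ∀ f : Icc (0:ℝ) 1 → X, RiemannIntegrable f →
    volume {t : ℝ | ∃ h : t ∈ Icc (0:ℝ) 1, ¬ WeaklyContinuousAt f ⟨t, h⟩} = 0

/-- Strong measure zero sets of reals. -/
def StrongMeasureZero (A : Set ℝ) : Prop :=
  ∀ ε : ℕ → ℝ, (∀ n, 0 < ε n) → ∃ x : ℕ → ℝ, A ⊆ ⋃ n, Icc (x n) (x n + ε n)

/-- The least cardinality of a set of reals that is not strong measure zero. -/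
noncomputable def nonSN : Cardinal.{0} :=
  sInf {c | ∃ A : Set ℝ, ¬ StrongMeasureZero A ∧ Cardinal.mk A = c}

section unif

lemma unif_union (N : ℕ) (hN : 0 < N) :
    (⋃ j : Fin N, Icc ((j:ℝ)/N) (((j:ℝ)+1)/N)) = Icc (0:ℝ) 1 := by
  have hN' : (0:ℝ) < N := by exact_mod_cast hN
  ext t
  simp only [mem_iUnion, mem_Icc]
  constructor
  · rintro ⟨j, h1, h2⟩
    constructor
    · exact le_trans (by positivity) h1
    · refine h2.trans ?_
      rw [div_le_one hN']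
      have : (j:ℕ) + 1 ≤ N := j.2
      exact_mod_cast this
  · rintro ⟨h0, h1⟩
    rcases eq_or_lt_of_le h1 with h1 | h1
    · refine ⟨⟨N-1, by omega⟩, ?_, ?_⟩
      · subst h1
        rw [div_le_one hN']
        exact_mod_cast Nat.sub_le N 1
      · subst h1
        rw [le_div_iff₀ hN', one_mul]
        have : N ≤ (N - 1) + 1 := by omega
        exact_mod_cast this
    · have hlt : ⌊t * N⌋₊ < N := by
        rw [Nat.floor_lt (by positivity)]
        nlinarith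
      refine ⟨⟨⌊t * N⌋₊, hlt⟩, ?_, ?_⟩
      · rw [div_le_iff₀ hN']
        exact Nat.floor_le (by positivity)
      · rw [le_div_iff₀ hN']
        exact (Nat.lt_floor_add_one _).le

lemma unif_disj (N : ℕ) (hN : 0 < N) (i j : Fin N) (hij : i ≠ j) :
    Disjoint (Ioo ((i:ℝ)/N) (((i:ℝ)+1)/N)) (Ioo ((j:ℝ)/N) (((j:ℝ)+1)/N)) := by
  have hN' : (0:ℝ) < N := by exact_mod_cast hN
  rw [Set.disjoint_left]
  rintro x ⟨h1, h2⟩ ⟨h3, h4⟩
  rw [div_lt_iff₀ hN'] at h1 h3
  rw [lt_div_iff₀ hN'] at h2 h4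
  have h5 : (i:ℝ) < (j:ℝ) + 1 := by linarith
  have h6 : (j:ℝ) < (i:ℝ) + 1 := by linarith
  have h7 : (i:ℕ) < (j:ℕ) + 1 := by exact_mod_cast h5
  have h8 : (j:ℕ) < (i:ℕ) + 1 := by exact_mod_cast h6
  exact hij (Fin.ext (by omega))

variable {X : Type u} [NormedAddCommGroup X] [NormedSpace ℝ X]

lemma osc_small {f : Icc (0:ℝ) 1 → X} {x : X} (hf : HasRiemannIntegral f x) (ε : ℝ) (hε : 0 < ε) :
    ∃ N0 : ℕ, 0 < N0 ∧ ∀ N : ℕ, N0 ≤ N → ∀ s t : Fin N → Icc (0:ℝ) 1,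
      (∀ j : Fin N, (s j : ℝ) ∈ Icc ((j:ℝ)/N) (((j:ℝ)+1)/N)) →
      (∀ j : Fin N, (t j : ℝ) ∈ Icc ((j:ℝ)/N) (((j:ℝ)+1)/N)) →
      ‖∑ j, ((1:ℝ)/N) • (f (s j) - f (t j))‖ < ε := by
  obtain ⟨δ, hδ, H⟩ := hf (ε/2) (by positivity)
  obtain ⟨N0, hN0⟩ := exists_nat_gt (1/δ)
  have hN0pos : 0 < N0 := by
    have : (0:ℝ) < N0 := lt_trans (by positivity) hN0
    exact_mod_cast this
  refine ⟨N0, hN0pos, ?_⟩
  intro N hN s t hs ht
  have hNpos : 0 < N := lt_of_lt_of_le hN0pos hN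
  have hN' : (0:ℝ) < N := by exact_mod_cast hNpos
  have hlen : ∀ j : Fin N, (((j:ℝ)+1)/N) - ((j:ℝ)/N) = 1/N := by
    intro j; ring
  have hlt : (1:ℝ)/N < δ := by
    rw [div_lt_iff₀ hN']
    have h1 : (N0:ℝ) ≤ N := by exact_mod_cast hN
    have h2 : 1/δ < N := lt_of_lt_of_le hN0 h1
    rw [div_lt_iff₀ hδ] at h2
    linarith
  have key : ∀ r : Fin N → Icc (0:ℝ) 1, (∀ j : Fin N, (r j : ℝ) ∈ Icc ((j:ℝ)/N) (((j:ℝ)+1)/N)) →
      ‖∑ j, ((1:ℝ)/N) • f (r j) - x‖ < ε/2 := by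
    intro r hr
    have := H N (fun j => (j:ℝ)/N) (fun j => ((j:ℝ)+1)/N) r ?_ ?_ (unif_disj N hNpos)
      (unif_union N hNpos) hr
    · simpa only [hlen] using this
    · intro j
      have := hlen j
      have h3 : (0:ℝ) ≤ 1/N := by positivity
      linarith
    · intro j
      rw [hlen j]
      exact hlt
  have h1 := key s hs
  have h2 := key t ht
  have : ∑ j, ((1:ℝ)/N) • (f (s j) - f (t j)) =
      (∑ j, ((1:ℝ)/N) • f (s j) - x) - (∑ j, ((1:ℝ)/N) • f (t j) - x) := by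
    simp only [smul_sub, Finset.sum_sub_distrib]
    abel
  rw [this]
  calc _ ≤ _ := norm_sub_le _ _
    _ < ε := by linarith

/-- left endpoints as tags -/
lemma tag_mem (N : ℕ) (hN : 0 < N) (j : Fin N) : ((j:ℝ)/N) ∈ Icc (0:ℝ) 1 := by
  have hN' : (0:ℝ) < N := by exact_mod_cast hN
  constructor
  · positivity
  · rw [div_le_one hN']
    exact_mod_cast j.2.le

lemma bounded_of_riemann {f : Icc (0:ℝ) 1 → X} {x : X} (hf : HasRiemannIntegral f x) :
    ∃ C : ℝ, ∀ t, ‖f t‖ ≤ C := by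
  obtain ⟨N, hNpos, H⟩ := osc_small hf 1 one_pos
  have hN' : (0:ℝ) < N := by exact_mod_cast hNpos
  have H' := H N le_rfl
  -- on each interval
  have key : ∀ (j : Fin N) (s : Icc (0:ℝ) 1), (s:ℝ) ∈ Icc ((j:ℝ)/N) (((j:ℝ)+1)/N) →
      ‖f s - f ⟨(j:ℝ)/N, tag_mem N hNpos j⟩‖ ≤ N := by
    intro j s hs
    have h := H' (Function.update (fun i : Fin N => (⟨(i:ℝ)/N, tag_mem N hNpos i⟩ : Icc (0:ℝ) 1)) j s)
      (fun i : Fin N => (⟨(i:ℝ)/N, tag_mem N hNpos i⟩ : Icc (0:ℝ) 1)) ?_ ?_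
    · rw [Finset.sum_eq_single j] at h
      · simp only [Function.update_self] at h
        rw [norm_smul] at h
        have h1 : ‖(1:ℝ)/N‖ = 1/N := by
          rw [Real.norm_of_nonneg (by positivity)]
        rw [h1, one_div, inv_mul_lt_iff₀ hN'] at h
        linarith
      · intro i _ hij
        rw [Function.update_of_ne hij]
        simp
      · intro h; exact absurd (Finset.mem_univ _) h
    · intro i
      by_cases hij : i = j
      · subst hij; simpa using hs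
      · rw [Function.update_of_ne hij]
        refine ⟨le_rfl, ?_⟩
        change (i:ℝ)/N ≤ ((i:ℝ)+1)/N
        gcongr; linarith
    · intro i
      refine ⟨le_rfl, ?_⟩
      change (i:ℝ)/N ≤ ((i:ℝ)+1)/N
      gcongr; linarith
  refine ⟨∑ j : Fin N, ‖f ⟨(j:ℝ)/N, tag_mem N hNpos j⟩‖ + N, ?_⟩
  intro t
  have ht : (t:ℝ) ∈ ⋃ j : Fin N, Icc ((j:ℝ)/N) (((j:ℝ)+1)/N) := by
    rw [unif_union N hNpos]; exact t.2
  obtain ⟨j, hj⟩ := mem_iUnion.1 ht
  have h1 := key j t hj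
  have h2 : ‖f ⟨(j:ℝ)/N, tag_mem N hNpos j⟩‖ ≤ ∑ j : Fin N, ‖f ⟨(j:ℝ)/N, tag_mem N hNpos j⟩‖ :=
    Finset.single_le_sum (f := fun j : Fin N => ‖f ⟨(j:ℝ)/N, tag_mem N hNpos j⟩‖)
      (fun _ _ => norm_nonneg _) (Finset.mem_univ j)
  calc ‖f t‖ = ‖(f t - f ⟨(j:ℝ)/N, tag_mem N hNpos j⟩) + f ⟨(j:ℝ)/N, tag_mem N hNpos j⟩‖ := by simp
    _ ≤ _ := norm_add_le _ _
    _ ≤ _ := by linarith

end unif

section oscset

/-- indices of uniform intervals on which `g` varies by at least `η`. -/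
noncomputable def oscSet (g : Icc (0:ℝ) 1 → ℝ) (N : ℕ) (η : ℝ) : Finset (Fin N) := by
  classical
  exact Finset.univ.filter (fun i : Fin N => ∃ s t : Icc (0:ℝ) 1,
    (s:ℝ) ∈ Icc ((i:ℝ)/N) (((i:ℝ)+1)/N) ∧ (t:ℝ) ∈ Icc ((i:ℝ)/N) (((i:ℝ)+1)/N) ∧ η ≤ g s - g t)

lemma mem_oscSet {g : Icc (0:ℝ) 1 → ℝ} {N : ℕ} {η : ℝ} {i : Fin N} :
    i ∈ oscSet g N η ↔ ∃ s t : Icc (0:ℝ) 1,
    (s:ℝ) ∈ Icc ((i:ℝ)/N) (((i:ℝ)+1)/N) ∧ (t:ℝ) ∈ Icc ((i:ℝ)/N) (((i:ℝ)+1)/N) ∧ η ≤ g s - g t := by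
  simp [oscSet]

variable {X : Type u} [NormedAddCommGroup X] [NormedSpace ℝ X]

lemma card_oscSet_le {f : Icc (0:ℝ) 1 → X} {N : ℕ} (hN : 0 < N) {ε η : ℝ} 
    (H : ∀ s t : Fin N → Icc (0:ℝ) 1,
      (∀ j : Fin N, (s j : ℝ) ∈ Icc ((j:ℝ)/N) (((j:ℝ)+1)/N)) →
      (∀ j : Fin N, (t j : ℝ) ∈ Icc ((j:ℝ)/N) (((j:ℝ)+1)/N)) →
      ‖∑ j, ((1:ℝ)/N) • (f (s j) - f (t j))‖ < ε)
    (φ : X →L[ℝ] ℝ) (hφ : ∀ x, |φ x| ≤ ‖x‖) :
    ((oscSet (fun t => φ (f t)) N η).card : ℝ) * η ≤ ε * N := by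
  classical
  have hN' : (0:ℝ) < N := by exact_mod_cast hN
  set S := oscSet (fun t => φ (f t)) N η with hS
  have hch : ∀ i : Fin N, ∃ s t : Icc (0:ℝ) 1,
    (s:ℝ) ∈ Icc ((i:ℝ)/N) (((i:ℝ)+1)/N) ∧ (t:ℝ) ∈ Icc ((i:ℝ)/N) (((i:ℝ)+1)/N) ∧
    ((if i ∈ S then η else 0) ≤ φ (f s) - φ (f t)) := by
    intro i
    by_cases hi : i ∈ S
    · obtain ⟨s, t, h1, h2, h3⟩ := mem_oscSet.1 hi
      exact ⟨s, t, h1, h2, by simpa [hi] using h3⟩
    · refine ⟨⟨(i:ℝ)/N, tag_mem N hN i⟩, ⟨(i:ℝ)/N, tag_mem N hN i⟩, ?_, ?_, ?_⟩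
      · refine ⟨le_rfl, ?_⟩
        change (i:ℝ)/N ≤ ((i:ℝ)+1)/N
        gcongr; linarith
      · refine ⟨le_rfl, ?_⟩
        change (i:ℝ)/N ≤ ((i:ℝ)+1)/N
        gcongr; linarith
      · simp [hi]
  choose s t h1 h2 h3 using hch
  have h4 := H s t h1 h2
  have h5 : φ (∑ j, ((1:ℝ)/N) • (f (s j) - f (t j))) = 
      (1/N) * ∑ j, (φ (f (s j)) - φ (f (t j))) := by
    rw [map_sum, Finset.mul_sum]
    refine Finset.sum_congr rfl fun j _ => ?_
    rw [map_smul, map_sub, smul_eq_mul]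
  have h6 : (S.card : ℝ) * η ≤ ∑ j, (φ (f (s j)) - φ (f (t j))) := by
    calc (S.card : ℝ) * η = ∑ j, (if j ∈ S then η else 0) := by
          rw [Finset.sum_ite_mem]; simp
      _ ≤ _ := Finset.sum_le_sum fun j _ => h3 j
  have h7 : φ (∑ j, ((1:ℝ)/N) • (f (s j) - f (t j))) ≤ ε := 
    (le_abs_self _).trans ((hφ _).trans h4.le)
  rw [h5] at h7
  have h8 : (1/N : ℝ) * ((S.card : ℝ) * η) ≤ ε := 
    (mul_le_mul_of_nonneg_left h6 (by positivity)).trans h7
  rw [one_div, inv_mul_le_iff₀ hN'] at h8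
  linarith

lemma mem_of_osc {g : Icc (0:ℝ) 1 → ℝ} {t : Icc (0:ℝ) 1} (ht : ∀ q : ℚ, (t:ℝ) ≠ q) {η : ℝ}
    (hosc : ∃ᶠ s in 𝓝 t, η ≤ |g s - g t|) {N : ℕ} (hN : 0 < N) :
    ∃ i ∈ oscSet g N η, (t:ℝ) ∈ Icc ((i:ℝ)/N) (((i:ℝ)+1)/N) := by
  have ht' : (t:ℝ) ∈ ⋃ j : Fin N, Icc ((j:ℝ)/N) (((j:ℝ)+1)/N) := by
    rw [unif_union N hN]; exact t.2
  obtain ⟨i, hi⟩ := mem_iUnion.1 ht'
  refine ⟨i, ?_, hi⟩
  have h1 : (t:ℝ) ≠ (i:ℝ)/N := by
    have := ht ((i:ℕ)/N : ℚ)
    push_cast at this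
    exact this
  have h2 : (t:ℝ) ≠ ((i:ℝ)+1)/N := by
    have := ht ((((i:ℕ):ℚ) + 1)/N)
    push_cast at this
    exact this
  have h3 : ∀ᶠ s : Icc (0:ℝ) 1 in 𝓝 t, (s:ℝ) ∈ Ioo ((i:ℝ)/N) (((i:ℝ)+1)/N) := by
    have : Ioo ((i:ℝ)/N) (((i:ℝ)+1)/N) ∈ 𝓝 (t:ℝ) :=
      Ioo_mem_nhds (lt_of_le_of_ne hi.1 (Ne.symm h1)) (lt_of_le_of_ne hi.2 h2)
    exact continuous_subtype_val.continuousAt this
  obtain ⟨s, hs1, hs2⟩ := (hosc.and_eventually h3).exists
  rw [mem_oscSet]
  rcases le_total 0 (g s - g t) with h | h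
  · rw [abs_of_nonneg h] at hs1
    exact ⟨s, t, Ioo_subset_Icc_self hs2, hi, hs1⟩
  · rw [abs_of_nonpos h] at hs1
    exact ⟨t, s, hi, Ioo_subset_Icc_self hs2, by linarith⟩

end oscset

section ioe

/-- a fixed embedding of the Cantor space in the line -/
noncomputable def cemb (x : ℕ → Bool) : ℝ := (cantorSetHomeomorphNatToBool.symm x : ℝ)

lemma cemb_continuous : Continuous cemb :=
  continuous_subtype_val.comp cantorSetHomeomorphNatToBool.symm.continuous

lemma cemb_injective : Function.Injective cemb :=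
  Subtype.val_injective.comp cantorSetHomeomorphNatToBool.symm.injective

lemma cemb_close (S : Finset ℕ) : ∃ ε : ℝ, 0 < ε ∧ ∀ x y, |cemb x - cemb y| ≤ ε → ∀ i ∈ S, x i = y i := by
  classical
  set K : Set ((ℕ → Bool) × (ℕ → Bool)) := {p | ∃ i ∈ S, p.1 i ≠ p.2 i} with hK
  have hKc : IsClosed K := by
    have : K = ⋃ i ∈ S, {p | p.1 i ≠ p.2 i} := by
      ext p; simp [hK]
    rw [this]
    apply Set.Finite.isClosed_biUnion S.finite_toSet
    intro i _
    have hc : Continuous (fun p : (ℕ → Bool) × (ℕ → Bool) => (p.1 i, p.2 i)) := by fun_prop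
    exact (isClosed_discrete {q : Bool × Bool | q.1 ≠ q.2}).preimage hc
  have hcomp : IsCompact K := hKc.isCompact
  rcases K.eq_empty_or_nonempty with hE | hne
  · refine ⟨1, one_pos, fun x y _ i hi => ?_⟩
    by_contra hne
    have : (x, y) ∈ K := ⟨i, hi, hne⟩
    rw [hE] at this
    exact this
  · have hcont : Continuous (fun p : (ℕ → Bool) × (ℕ → Bool) => |cemb p.1 - cemb p.2|) := by
      have := cemb_continuous
      fun_prop
    obtain ⟨p, hp, hmin⟩ := hcomp.exists_isMinOn hne hcont.continuousOn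
    have hpos : 0 < |cemb p.1 - cemb p.2| := by
      rw [abs_pos, sub_ne_zero]
      intro h
      obtain ⟨i, hi, hne⟩ := hp
      exact hne (congrFun (cemb_injective h) i)
    refine ⟨|cemb p.1 - cemb p.2| / 2, by positivity, fun x y hxy i hi => ?_⟩
    by_contra hne
    have hm : |cemb p.1 - cemb p.2| ≤ |cemb x - cemb y| :=
      isMinOn_iff.1 hmin (x, y) ⟨i, hi, hne⟩
    linarith

lemma ioe_nat {Γ : Type u} (hSN : ∀ A : Set ℝ, Nonempty (A ↪ Γ) → StrongMeasureZero A)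
    (b : ℕ → ℕ) (F : Γ → ℕ → ℕ) (hF : ∀ γ m, F γ m < 2 ^ (b m)) :
    ∃ g : ℕ → ℕ, ∀ γ, ∀ j, ∃ m, j ≤ m ∧ F γ m = g m := by
  classical
  -- code
  let c : Γ → ℕ → Bool := fun γ k => (F γ (Nat.unpair k).1).testBit (Nat.unpair k).2
  let S : ℕ → Finset ℕ := fun m => (Finset.range (b m)).image (fun k => Nat.pair m k)
  have hdec : ∀ m γ γ', (∀ i ∈ S m, c γ i = c γ' i) → F γ m = F γ' m := by
    intro m γ γ' h
    apply Nat.eq_of_testBit_eq
    intro k
    by_cases hk : k < b m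
    · have := h (Nat.pair m k) (Finset.mem_image.2 ⟨k, Finset.mem_range.2 hk, rfl⟩)
      simpa [c] using this
    · have h1 : ∀ γ, (F γ m).testBit k = false := by
        intro γ
        apply Nat.testBit_lt_two_pow
        exact (hF γ m).trans_le (Nat.pow_le_pow_right (by norm_num) (by omega))
      rw [h1, h1]
  choose ε hε hclose using fun m => cemb_close (S m)
  set A : Set ℝ := range (fun γ => cemb (c γ)) with hA
  have hemb : Nonempty (A ↪ Γ) := by
    have : ∀ a : A, ∃ γ, cemb (c γ) = a := fun a => a.2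
    choose r hr using this
    refine ⟨⟨r, fun a a' h => ?_⟩⟩
    apply Subtype.ext
    rw [← hr a, ← hr a', h]
  have hsmz := hSN A hemb
  -- for each j apply to a subsequence
  have : ∀ j, ∃ x : ℕ → ℝ, A ⊆ ⋃ n, Icc (x n) (x n + ε (Nat.pair j n)) := fun j =>
    hsmz (fun n => ε (Nat.pair j n)) (fun n => hε _)
  choose x hx using this
  let P : ℕ → Γ → Prop := fun m γ => cemb (c γ) ∈ Icc (x (Nat.unpair m).1 (Nat.unpair m).2)
    (x (Nat.unpair m).1 (Nat.unpair m).2 + ε m)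
  refine ⟨fun m => if h : ∃ γ, P m γ then F h.choose m else 0, ?_⟩
  intro γ j
  have hmem : cemb (c γ) ∈ A := ⟨γ, rfl⟩
  obtain ⟨n, hn⟩ := mem_iUnion.1 (hx j hmem)
  refine ⟨Nat.pair j n, Nat.left_le_pair j n, ?_⟩
  have hP : P (Nat.pair j n) γ := by
    simpa [P] using hn
  have hex : ∃ γ, P (Nat.pair j n) γ := ⟨γ, hP⟩
  beta_reduce
  rw [dif_pos hex]
  have hP' := hex.choose_spec
  apply hdec
  apply hclose
  rw [abs_le]
  obtain ⟨h1, h2⟩ := hP
  obtain ⟨h3, h4⟩ := hP'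
  constructor <;> linarith

lemma ioe_fintype {Γ : Type u} (hSN : ∀ A : Set ℝ, Nonempty (A ↪ Γ) → StrongMeasureZero A)
    (β : ℕ → Type) [∀ m, Fintype (β m)] [∀ m, Inhabited (β m)] (F : Γ → ∀ m, β m) :
    ∃ g : ∀ m, β m, ∀ γ, ∀ j, ∃ m, j ≤ m ∧ F γ m = g m := by
  classical
  obtain ⟨g, hg⟩ := ioe_nat hSN (fun m => Fintype.card (β m))
    (fun γ m => (Fintype.equivFin (β m) (F γ m) : ℕ)) (fun γ m =>
      (Fintype.equivFin (β m) (F γ m)).2.trans Nat.lt_two_pow_self)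
  refine ⟨fun m => if h : g m < Fintype.card (β m) then (Fintype.equivFin (β m)).symm ⟨g m, h⟩ 
    else default, ?_⟩
  intro γ j
  obtain ⟨m, hm, he⟩ := hg γ j
  refine ⟨m, hm, ?_⟩
  have hlt : g m < Fintype.card (β m) := by
    rw [← he]; exact (Fintype.equivFin (β m) (F γ m)).2
  beta_reduce
  rw [dif_pos hlt, Equiv.eq_symm_apply]
  apply Fin.ext
  exact he

end ioe

section partA

lemma weaklyContinuousAt_iff {X : Type u} [NormedAddCommGroup X] [NormedSpace ℝ X]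
    (f : Icc (0:ℝ) 1 → X) (t : Icc (0:ℝ) 1) :
    WeaklyContinuousAt f t ↔ ∀ φ : X →L[ℝ] ℝ, ContinuousAt (fun s => φ (f s)) t := by
  unfold WeaklyContinuousAt ContinuousAt
  have h := nhds_induced (fun (x : WeakSpace ℝ X) (y : StrongDual ℝ X) =>
    (topDualPairing ℝ X).flip x y) (toWeakSpace ℝ X (f t))
  change Tendsto _ _ (@nhds (WeakSpace ℝ X) _ (toWeakSpace ℝ X (f t))) ↔ _
  erw [h, tendsto_comap_iff, tendsto_pi_nhds]
  rfl

lemma weakCont_of_coord {Γ : Type u} {f : Icc (0:ℝ) 1 → lp (fun _ : Γ => ℝ) 2} {C : ℝ}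
    (hC : ∀ t, ‖f t‖ ≤ C) (t : Icc (0:ℝ) 1)
    (h : ∀ γ, ContinuousAt (fun s => (f s : Γ → ℝ) γ) t) : WeaklyContinuousAt f t := by
  classical
  rw [weaklyContinuousAt_iff]
  intro φ
  set y := (InnerProductSpace.toDual ℝ (lp (fun _ : Γ => ℝ) 2)).symm φ with hy
  have hφ : ∀ x, φ x = inner ℝ y x := by
    intro x
    rw [hy, InnerProductSpace.toDual_symm_apply]
  simp only [hφ]
  have hC0 : 0 ≤ C := (norm_nonneg _).trans (hC t)
  apply continuousAt_of_locally_uniform_approx_of_continuousAt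
  intro u hu
  obtain ⟨ε, hε, hεu⟩ := Metric.mem_uniformity_dist.1 hu
  have hsum := lp.hasSum_single (p := 2) (by norm_num) y
  have h1 := Metric.tendsto_atTop.1 hsum (ε / (C+1)) (by positivity)
  obtain ⟨S, hS⟩ := h1
  have h2 := hS S le_rfl
  refine ⟨univ, univ_mem, fun s => inner ℝ (∑ i ∈ S, lp.single 2 i (y i)) (f s), ?_, ?_⟩
  · have : (fun s => inner ℝ (∑ i ∈ S, lp.single 2 i (y i)) (f s)) = 
        fun s => ∑ i ∈ S, (y i) * (f s : Γ → ℝ) i := by
      funext s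
      rw [sum_inner]
      refine Finset.sum_congr rfl fun i _ => ?_
      rw [lp.inner_single_left]
      simp [mul_comm]
    rw [this]
    exact tendsto_finsetSum _ (fun i _ => (h i).const_mul _)
  · intro s _
    apply hεu
    rw [dist_comm, Real.dist_eq, ← inner_sub_left]
    calc |inner ℝ (∑ i ∈ S, lp.single 2 i (y i) - y) (f s)| 
        ≤ ‖∑ i ∈ S, lp.single 2 i (y i) - y‖ * ‖f s‖ := abs_real_inner_le_norm _ _
      _ ≤ (ε / (C+1)) * C := by
          rw [dist_eq_norm] at h2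
          gcongr
          exact hC s
      _ < ε := by
          rw [div_mul_eq_mul_div, div_lt_iff₀ (by positivity)]
          nlinarith

/-- coordinate functional -/
noncomputable def coordL {Γ : Type u} (γ : Γ) : lp (fun _ : Γ => ℝ) 2 →L[ℝ] ℝ := by
  classical
  exact innerSL ℝ (lp.single 2 γ (1:ℝ) : lp (fun _ : Γ => ℝ) 2)

lemma coordL_apply {Γ : Type u} (γ : Γ) (x : lp (fun _ : Γ => ℝ) 2) : 
    coordL γ x = (x : Γ → ℝ) γ := by
  classical
  unfold coordL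
  rw [innerSL_apply_apply, lp.inner_single_left]
  simp

theorem wlp_of_SN {Γ : Type u} (hSN : ∀ A : Set ℝ, Nonempty (A ↪ Γ) → StrongMeasureZero A) :
    WeakLebesgueProperty (lp (fun _ : Γ => ℝ) 2) := by
  classical
  rintro f ⟨x, hf⟩
  obtain ⟨C, hC⟩ := bounded_of_riemann hf
  -- bad set at level η
  set Bad : ℕ → Set ℝ := fun k => {t : ℝ | (∀ q : ℚ, t ≠ q) ∧ ∃ h : t ∈ Icc (0:ℝ) 1, ∃ γ : Γ,
    ∃ᶠ s in 𝓝 (⟨t, h⟩ : Icc (0:ℝ) 1), (1:ℝ)/(k+1) ≤ |(f s : Γ → ℝ) γ - (f ⟨t, h⟩ : Γ → ℝ) γ|} with hBad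
  have hsub : {t : ℝ | ∃ h : t ∈ Icc (0:ℝ) 1, ¬ WeaklyContinuousAt f ⟨t, h⟩} ⊆
      (range ((↑) : ℚ → ℝ)) ∪ ⋃ k, Bad k := by
    rintro t ⟨h, ht⟩
    by_cases hq : ∃ q : ℚ, t = q
    · left
      obtain ⟨q, rfl⟩ := hq
      exact ⟨q, rfl⟩
    · right
      push Not at hq
      by_contra hno
      apply ht
      apply weakCont_of_coord hC
      intro γ
      rw [Metric.continuousAt_iff']
      intro ε hε
      obtain ⟨k, hk⟩ := exists_nat_one_div_lt hε
      by_contra hcon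
      apply hno
      refine mem_iUnion.2 ⟨k, hq, h, γ, ?_⟩
      rw [not_eventually] at hcon
      refine hcon.mono fun s hs => ?_
      rw [Real.dist_eq] at hs
      push Not at hs
      exact hk.le.trans hs
  refine measure_mono_null hsub ?_
  refine measure_union_null (Set.Countable.measure_zero (countable_range _) _) ?_
  rw [measure_iUnion_null_iff]
  intro k
  -- choose N m
  set η : ℝ := 1/(k+1) with hη
  have hηpos : 0 < η := by positivity
  have hN : ∀ m : ℕ, ∃ N : ℕ, 0 < N ∧ ∀ γ : Γ, 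
      ((oscSet (fun t => (f t : Γ → ℝ) γ) N η).card : ℝ) ≤ (1/2:ℝ)^m * N := by
    intro m
    obtain ⟨N0, hN0, H⟩ := osc_small hf (η * (1/2:ℝ)^m) (by positivity)
    refine ⟨N0, hN0, fun γ => ?_⟩
    have h1 := card_oscSet_le (η := η) hN0 (H N0 le_rfl) (coordL γ) (by
      intro x
      rw [coordL_apply]
      exact lp.norm_apply_le_norm (by norm_num) x γ)
    simp only [coordL_apply] at h1
    have h2 : ((oscSet (fun t => (f t : Γ → ℝ) γ) N0 η).card : ℝ) * η ≤ ((1/2:ℝ)^m * N0) * η := by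
      calc _ ≤ η * (1/2:ℝ)^m * N0 := h1
        _ = _ := by ring
    exact le_of_mul_le_mul_right h2 hηpos
  choose N hNpos hNcard using hN
  obtain ⟨g, hg⟩ := ioe_fintype hSN (fun m => Finset (Fin (N m))) 
    (fun γ m => oscSet (fun t => (f t : Γ → ℝ) γ) (N m) η)
  set G : ∀ m, Finset (Fin (N m)) := fun m => if ((g m).card : ℝ) ≤ (1/2:ℝ)^m * N m then g m else ∅ with hG
  have hGcard : ∀ m, ((G m).card : ℝ) ≤ (1/2:ℝ)^m * N m := by
    intro m
    rw [hG]
    beta_reduce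
    split_ifs with h
    · exact h
    · simp
  set U : ℕ → Set ℝ := fun m => ⋃ i ∈ G m, Icc ((i:ℝ)/N m) (((i:ℝ)+1)/N m) with hU
  have hvol : ∀ m, volume (U m) ≤ ENNReal.ofReal ((1/2:ℝ)^m) := by
    intro m
    have hN' : (0:ℝ) < N m := by exact_mod_cast hNpos m
    calc volume (U m) ≤ ∑ i ∈ G m, volume (Icc ((i:ℝ)/N m) (((i:ℝ)+1)/N m)) := 
          measure_biUnion_finset_le _ _
      _ = ∑ i ∈ G m, ENNReal.ofReal (1/N m) := by
          refine Finset.sum_congr rfl fun i _ => ?_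
          rw [Real.volume_Icc]
          congr 1
          ring
      _ = ENNReal.ofReal ((G m).card * (1/N m)) := by
          rw [Finset.sum_const, nsmul_eq_mul, ENNReal.ofReal_mul (by positivity), 
            ENNReal.ofReal_natCast]
      _ ≤ _ := by
          apply ENNReal.ofReal_le_ofReal
          rw [mul_one_div, div_le_iff₀ hN']
          exact hGcard m
  have hlim : volume (limsup U atTop) = 0 := by
    apply measure_limsup_atTop_eq_zero
    have h1 : ∑' m, volume (U m) ≤ ∑' m, ENNReal.ofReal ((1/2:ℝ)^m) := ENNReal.tsum_le_tsum hvol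
    refine ne_top_of_le_ne_top ?_ h1
    rw [← ENNReal.ofReal_tsum_of_nonneg (fun m => by positivity) summable_geometric_two]
    exact ENNReal.ofReal_ne_top
  refine measure_mono_null ?_ hlim
  rintro t ⟨hq, h, γ, hosc⟩
  rw [mem_limsup_iff_frequently_mem, frequently_atTop]
  intro j
  obtain ⟨m, hm, he⟩ := hg γ j
  refine ⟨m, hm, ?_⟩
  obtain ⟨i, hi, hti⟩ := mem_of_osc (g := fun t => (f t : Γ → ℝ) γ) (t := ⟨t, h⟩) hq hosc (hNpos m)
  have hgm : G m = g m := by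
    rw [hG]
    beta_reduce
    rw [if_pos]
    rw [← he]
    exact hNcard m γ
  rw [hU]
  simp only [mem_iUnion]
  refine ⟨i, ?_, hti⟩
  rw [hgm, ← he]
  exact hi

end partA

section lemmaR

/-- total length of non-overlapping intervals lying in a set -/
lemma sum_len_le {p : ℕ} (a b : Fin p → ℝ) 
    (hdisj : ∀ i j, i ≠ j → Disjoint (Ioo (a i) (b i)) (Ioo (a j) (b j)))
    (J : Finset (Fin p)) (E : Set ℝ) (hE : ∀ j ∈ J, Ioo (a j) (b j) ⊆ E) (ε : ℝ) (hε : 0 ≤ ε)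
    (hvol : volume E ≤ ENNReal.ofReal ε) (hab : ∀ j, a j ≤ b j) :
    ∑ j ∈ J, (b j - a j) ≤ ε := by
  have h1 : volume (⋃ j ∈ J, Ioo (a j) (b j)) = ∑ j ∈ J, volume (Ioo (a j) (b j)) := by
    apply measure_biUnion_finset
    · intro i _ j _ hij
      exact hdisj i j hij
    · intro i _
      exact measurableSet_Ioo
  have h2 : volume (⋃ j ∈ J, Ioo (a j) (b j)) ≤ volume E := measure_mono (iUnion₂_subset hE)
  rw [h1] at h2
  simp only [Real.volume_Ioo] at h2
  rw [← ENNReal.ofReal_sum_of_nonneg (fun j _ => sub_nonneg.2 (hab j))] at h2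
  exact (ENNReal.ofReal_le_ofReal_iff hε).1 (h2.trans hvol)

variable {Γ : Type u}

/-- the function attached to a partial colouring -/
noncomputable def fc (c : Icc (0:ℝ) 1 → Option Γ) (t : Icc (0:ℝ) 1) : lp (fun _ : Γ => ℝ) 2 := by
  classical
  exact (c t).elim 0 (fun γ => lp.single 2 γ 1)

lemma fc_apply (c : Icc (0:ℝ) 1 → Option Γ) (t : Icc (0:ℝ) 1) (γ : Γ) [Decidable (c t = some γ)] :
    (fc c t : Γ → ℝ) γ = if c t = some γ then 1 else 0 := by
  classical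
  by_cases h : c t = some γ
  · rw [if_pos h]
    unfold fc
    rw [h]
    simp [lp.single_apply]
  · rw [if_neg h]
    unfold fc
    cases h' : c t with
    | none => simp
    | some γ' =>
      have hne : γ' ≠ γ := by
        rintro rfl
        exact h h'
      simp only [Option.elim_some]
      rw [lp.single_apply, Pi.single_eq_of_ne (Ne.symm hne)]

lemma inner_fc (c : Icc (0:ℝ) 1 → Option Γ) (s t : Icc (0:ℝ) 1) (γ : Γ) (hs : c s = some γ) 
    [Decidable (c t = some γ)] :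
    inner ℝ (fc c s) (fc c t) = if c t = some γ then 1 else 0 := by
  classical
  have : fc c s = lp.single 2 γ 1 := by
    unfold fc
    rw [hs]
    rfl
  rw [this, lp.inner_single_left, fc_apply]
  simp

lemma inner_fc_none (c : Icc (0:ℝ) 1 → Option Γ) (s t : Icc (0:ℝ) 1) (hs : c s = none) :
    inner ℝ (fc c s) (fc c t) = 0 := by
  have : fc c s = 0 := by
    unfold fc
    rw [hs]
    rfl
  rw [this, inner_zero_left]

lemma riemann_fc (c : Icc (0:ℝ) 1 → Option Γ) 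
    (hc : ∀ ε : ℝ, 0 < ε → ∃ δ : ℝ, 0 < δ ∧ ∀ γ : Γ, 
      volume (⋃ (t : Icc (0:ℝ) 1) (_ : c t = some γ), Icc ((t:ℝ) - δ) (t + δ)) ≤ ENNReal.ofReal ε) :
    HasRiemannIntegral (fc c) 0 := by
  classical
  intro ε hε
  obtain ⟨δ, hδ, H⟩ := hc (ε^2/2) (by positivity)
  refine ⟨δ, hδ, ?_⟩
  intro p a b t hab hmesh hdisj hunion htag
  rw [sub_zero]
  have hw : ∀ j, 0 ≤ b j - a j := fun j => sub_nonneg.2 (hab j)
  have htot : ∑ j, (b j - a j) ≤ 1 := by
    apply sum_len_le a b hdisj Finset.univ (Icc 0 1) _ 1 zero_le_one (by simp) hab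
    intro j _
    rw [← hunion]
    exact Ioo_subset_Icc_self.trans (subset_iUnion (fun j => Icc (a j) (b j)) j)
  have hrow : ∀ j, ∑ k, (b k - a k) * inner ℝ (fc c (t j)) (fc c (t k)) ≤ ε^2/2 := by
    intro j
    cases hj : c (t j) with
    | none =>
      simp only [inner_fc_none c (t j) _ hj, mul_zero, Finset.sum_const_zero]
      positivity
    | some γ =>
      simp only [inner_fc c (t j) _ γ hj, mul_ite, mul_one, mul_zero]
      rw [← Finset.sum_filter]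
      apply sum_len_le a b hdisj _ _ _ _ (by positivity) (H γ) hab
      intro k hk
      rw [Finset.mem_filter] at hk
      intro y hy
      refine mem_iUnion₂.2 ⟨t k, hk.2, ?_⟩
      have h1 := htag k
      have h2 := hmesh k
      constructor
      · linarith [h1.1, h1.2, hy.1, hy.2]
      · linarith [h1.1, h1.2, hy.1, hy.2]
  have hsq : ‖∑ j, (b j - a j) • fc c (t j)‖^2 ≤ ε^2/2 := by
    rw [← real_inner_self_eq_norm_sq, sum_inner]
    calc ∑ j, inner ℝ ((b j - a j) • fc c (t j)) (∑ k, (b k - a k) • fc c (t k)) 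
        = ∑ j, (b j - a j) * ∑ k, (b k - a k) * inner ℝ (fc c (t j)) (fc c (t k)) := by
          refine Finset.sum_congr rfl fun j _ => ?_
          rw [real_inner_smul_left, inner_sum]
          congr 1
          refine Finset.sum_congr rfl fun k _ => ?_
          rw [real_inner_smul_right]
      _ ≤ ∑ j, (b j - a j) * (ε^2/2) := by
          refine Finset.sum_le_sum fun j _ => ?_
          exact mul_le_mul_of_nonneg_left (hrow j) (hw j)
      _ = (∑ j, (b j - a j)) * (ε^2/2) := by rw [Finset.sum_mul]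
      _ ≤ 1 * (ε^2/2) := by gcongr
      _ = ε^2/2 := one_mul _
  have : ‖∑ j, (b j - a j) • fc c (t j)‖^2 < ε^2 := by
    have : 0 < ε^2 := by positivity
    linarith
  exact lt_of_pow_lt_pow_left₀ 2 hε.le this

lemma not_wlp_of_emb (e : Icc (0:ℝ) 1 ↪ Γ) : ¬ WeakLebesgueProperty (lp (fun _ : Γ => ℝ) 2) := by
  classical
  intro hW
  have h := hW (fc (fun t => some (e t))) ⟨0, riemann_fc _ ?_⟩
  · have hall : {t : ℝ | ∃ h : t ∈ Icc (0:ℝ) 1, 
        ¬ WeaklyContinuousAt (fc (fun t => some (e t))) ⟨t, h⟩} = Icc 0 1 := by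
      ext t
      simp only [mem_ofPred_eq]
      constructor
      · rintro ⟨h, _⟩; exact h
      · intro h
        refine ⟨h, fun hcont => ?_⟩
        rw [weaklyContinuousAt_iff] at hcont
        have h1 := hcont (coordL (e ⟨t, h⟩))
        simp only [coordL_apply, fc_apply, Option.some.injEq, EmbeddingLike.apply_eq_iff_eq] at h1
        have h2 : ∀ᶠ s : Icc (0:ℝ) 1 in 𝓝 ⟨t, h⟩, s = ⟨t, h⟩ := by
          have h3 := Metric.continuousAt_iff'.1 h1 (1/2) (by norm_num)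
          filter_upwards [h3] with s hs
          by_contra hne
          rw [if_neg hne, if_pos rfl] at hs
          norm_num [Real.dist_eq] at hs
        have h4 : ({(⟨t, h⟩ : Icc (0:ℝ) 1)} : Set (Icc (0:ℝ) 1)) ∈ 𝓝 (⟨t, h⟩ : Icc (0:ℝ) 1) := h2
        have h5 : (𝓝[≠] (⟨t, h⟩ : Icc (0:ℝ) 1)).NeBot := inferInstance
        rw [mem_nhds_iff] at h4
        obtain ⟨V, hV, hVo, htV⟩ := h4
        have h6 : (𝓝[≠] (⟨t, h⟩ : Icc (0:ℝ) 1)) = ⊥ := by
          rw [← Filter.empty_mem_iff_bot]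
          have : V ∩ {(⟨t, h⟩ : Icc (0:ℝ) 1)}ᶜ ∈ 𝓝[≠] (⟨t, h⟩ : Icc (0:ℝ) 1) :=
            inter_mem (mem_nhdsWithin_of_mem_nhds (hVo.mem_nhds htV)) self_mem_nhdsWithin
          have h7 : V ∩ {(⟨t, h⟩ : Icc (0:ℝ) 1)}ᶜ = ∅ := by
            ext y
            simp only [mem_inter_iff, mem_compl_iff, mem_singleton_iff, mem_empty_iff_false, iff_false,
              not_and, not_not]
            intro hy
            exact hV hy
          rwa [h7] at this
        exact h5.ne h6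
    rw [hall] at h
    simp at h
  · intro ε hε
    refine ⟨ε/2, by positivity, fun γ => ?_⟩
    by_cases hγ : ∃ t, e t = γ
    · obtain ⟨t, rfl⟩ := hγ
      have : (⋃ (s : Icc (0:ℝ) 1) (_ : some (e s) = some (e t)), Icc ((s:ℝ) - ε/2) (s + ε/2)) ⊆ 
          Icc ((t:ℝ) - ε/2) (t + ε/2) := by
        refine iUnion₂_subset fun s hs => ?_
        have : s = t := e.injective (Option.some.inj hs)
        rw [this]
      refine (measure_mono this).trans ?_
      rw [Real.volume_Icc]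
      apply ENNReal.ofReal_le_ofReal
      linarith
    · have : (⋃ (s : Icc (0:ℝ) 1) (_ : some (e s) = some γ), Icc ((s:ℝ) - ε/2) (s + ε/2)) = ∅ := by
        simp only [iUnion_eq_empty]
        intro s hs
        exact absurd ⟨s, Option.some.inj hs⟩ hγ
      rw [this]
      simp

end lemmaR


section bits

/-- Rademacher-type sign of the `k`-th binary digit -/
noncomputable def rad (k j : ℕ) : ℝ := if j.testBit k then 1 else -1

lemma rad_flip (k l j : ℕ) : rad l (j ^^^ 2^k) = if k = l then - rad l j else rad l j := by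
  unfold rad
  rw [Nat.testBit_xor, Nat.testBit_two_pow]
  by_cases h : k = l
  · subst h
    cases j.testBit k <;> simp
  · simp [h]

lemma sum_flip (b k : ℕ) (hk : k < b) (g : ℕ → ℝ) :
    ∑ j ∈ Finset.range (2^b), g (j ^^^ 2^k) = ∑ j ∈ Finset.range (2^b), g j := by
  refine Finset.sum_nbij' (fun j => j ^^^ 2^k) (fun j => j ^^^ 2^k) ?_ ?_ ?_ ?_ ?_
  · intro j hj
    rw [Finset.mem_range] at hj ⊢
    exact Nat.xor_lt_two_pow hj (Nat.pow_lt_pow_right (by norm_num) hk)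
  · intro j hj
    rw [Finset.mem_range] at hj ⊢
    exact Nat.xor_lt_two_pow hj (Nat.pow_lt_pow_right (by norm_num) hk)
  · intro j _; simp
  · intro j _; simp
  · intro j _; rfl

lemma sum_rad (b k : ℕ) (hk : k < b) : ∑ j ∈ Finset.range (2^b), rad k j = 0 := by
  have h := sum_flip b k hk (rad k)
  simp only [rad_flip, if_true, Finset.sum_neg_distrib] at h
  linarith

lemma sum_rad_mul (b k l : ℕ) (hk : k < b) (hkl : k ≠ l) :
    ∑ j ∈ Finset.range (2^b), rad k j * rad l j = 0 := by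
  have h := sum_flip b k hk (fun j => rad k j * rad l j)
  simp only [rad_flip, if_true, if_neg hkl, neg_mul, Finset.sum_neg_distrib] at h
  linarith

lemma rad_sq (k j : ℕ) : rad k j * rad k j = 1 := by
  unfold rad; split_ifs <;> norm_num

/-- finite Bessel inequality for the Rademacher functions -/
lemma bessel (b : ℕ) (a : ℕ → ℝ) :
    ∑ k ∈ Finset.range b, (∑ j ∈ Finset.range (2^b), rad k j * a j)^2 ≤
      2^b * ∑ j ∈ Finset.range (2^b), (a j)^2 := by
  set c : ℕ → ℝ := fun k => ∑ j ∈ Finset.range (2^b), rad k j * a j with hc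
  have hpos : (0:ℝ) < 2^b := by positivity
  have h0 : 0 ≤ ∑ j ∈ Finset.range (2^b), (a j - (2^b)⁻¹ * ∑ k ∈ Finset.range b, c k * rad k j)^2 :=
    Finset.sum_nonneg fun j _ => sq_nonneg _
  have hcross : ∑ j ∈ Finset.range (2^b), a j * ∑ k ∈ Finset.range b, c k * rad k j = 
      ∑ k ∈ Finset.range b, (c k)^2 := by
    simp only [Finset.mul_sum]
    rw [Finset.sum_comm]
    refine Finset.sum_congr rfl fun k _ => ?_
    have : ∀ j ∈ Finset.range (2^b), a j * (c k * rad k j) = c k * (rad k j * a j) := by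
      intro j _; ring
    rw [Finset.sum_congr rfl this, ← Finset.mul_sum, sq]
  have hquad : ∑ j ∈ Finset.range (2^b), (∑ k ∈ Finset.range b, c k * rad k j)^2 = 
      2^b * ∑ k ∈ Finset.range b, (c k)^2 := by
    have : ∀ j ∈ Finset.range (2^b), (∑ k ∈ Finset.range b, c k * rad k j)^2 = 
        ∑ k ∈ Finset.range b, ∑ l ∈ Finset.range b, (c k * c l) * (rad k j * rad l j) := by
      intro j _
      rw [sq, Finset.sum_mul_sum]
      refine Finset.sum_congr rfl fun k _ => Finset.sum_congr rfl fun l _ => ?_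
      ring
    rw [Finset.sum_congr rfl this, Finset.sum_comm, Finset.mul_sum]
    refine Finset.sum_congr rfl fun k hk => ?_
    rw [Finset.sum_comm]
    rw [Finset.sum_eq_single k]
    · rw [← Finset.mul_sum]
      simp only [rad_sq, Finset.sum_const, Finset.card_range, nsmul_eq_mul, mul_one]
      push_cast
      ring
    · intro l _ hl
      rw [← Finset.mul_sum, sum_rad_mul b k l (Finset.mem_range.1 hk) (Ne.symm hl), mul_zero]
    · intro h; exact absurd hk h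
  have hexp : ∑ j ∈ Finset.range (2^b), (a j - (2^b)⁻¹ * ∑ k ∈ Finset.range b, c k * rad k j)^2 =
      ∑ j ∈ Finset.range (2^b), (a j)^2 - (2^b)⁻¹ * ∑ k ∈ Finset.range b, (c k)^2 := by
    have : ∀ j ∈ Finset.range (2^b), (a j - (2^b)⁻¹ * ∑ k ∈ Finset.range b, c k * rad k j)^2 = 
        (a j)^2 - 2 * (2^b)⁻¹ * (a j * ∑ k ∈ Finset.range b, c k * rad k j) + 
          ((2^b)⁻¹)^2 * (∑ k ∈ Finset.range b, c k * rad k j)^2 := by
      intro j _; ring
    rw [Finset.sum_congr rfl this, Finset.sum_add_distrib, Finset.sum_sub_distrib, ← Finset.mul_sum,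
      ← Finset.mul_sum, hcross, hquad]
    field_simp
    ring
  rw [hexp] at h0
  have h1 : (2^b)⁻¹ * ∑ k ∈ Finset.range b, (c k)^2 ≤ ∑ j ∈ Finset.range (2^b), (a j)^2 := by linarith
  rw [inv_mul_le_iff₀ hpos] at h1
  exact h1

/-- refine a set of dyadic indices by `b` further digits, the `k`-th of which is one -/
noncomputable def stp (b k : ℕ) (S : Finset ℕ) : Finset ℕ :=
  (S ×ˢ (Finset.range (2^b)).filter (fun j => j.testBit k)).image (fun p => p.1 * 2^b + p.2)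

lemma mem_stp {b k : ℕ} {S : Finset ℕ} {m : ℕ} : 
    m ∈ stp b k S ↔ ∃ i ∈ S, ∃ j < 2^b, j.testBit k = true ∧ i * 2^b + j = m := by
  simp only [stp, Finset.mem_image, Finset.mem_product, Finset.mem_filter, Finset.mem_range, Prod.exists]
  constructor
  · rintro ⟨i, j, ⟨hi, hj, hk⟩, h⟩
    exact ⟨i, hi, j, hj, hk, h⟩
  · rintro ⟨i, hi, j, hj, hk, h⟩
    exact ⟨i, j, ⟨hi, hj, hk⟩, h⟩

lemma sum_stp (b k : ℕ) (S : Finset ℕ) (g : ℕ → ℝ) :
    ∑ m ∈ stp b k S, g m = ∑ j ∈ (Finset.range (2^b)).filter (fun j => j.testBit k), ∑ i ∈ S, g (i * 2^b + j) := by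
  unfold stp
  rw [Finset.sum_image]
  · rw [Finset.sum_product_right]
  · rintro ⟨i, j⟩ h1 ⟨i', j'⟩ h2 h
    simp only [Finset.coe_product, Finset.coe_filter, mem_prod, Finset.mem_coe, mem_ofPred_eq, 
      Finset.mem_range] at h1 h2 h
    have hj : j < 2^b := h1.2.1
    have hj' : j' < 2^b := h2.2.1
    have e1 : i = i' := by
      have h3 : (i * 2^b + j) / 2^b = i := by
        rw [mul_comm, Nat.mul_add_div (by positivity), Nat.div_eq_of_lt hj, add_zero]
      have h4 : (i' * 2^b + j') / 2^b = i' := by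
        rw [mul_comm, Nat.mul_add_div (by positivity), Nat.div_eq_of_lt hj', add_zero]
      rw [← h3, ← h4, h]
    subst e1
    simp only [Prod.mk.injEq, true_and]
    omega

lemma sum_testBit (b k : ℕ) (a : ℕ → ℝ) :
    ∑ j ∈ (Finset.range (2^b)).filter (fun j => j.testBit k), a j = 
      (1/2) * (∑ j ∈ Finset.range (2^b), a j + ∑ j ∈ Finset.range (2^b), rad k j * a j) := by
  rw [Finset.sum_filter, ← Finset.sum_add_distrib, Finset.mul_sum]
  refine Finset.sum_congr rfl fun j _ => ?_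
  unfold rad
  split_ifs <;> ring

lemma card_stp (b k : ℕ) (hk : k < b) (S : Finset ℕ) : 
    ((stp b k S).card : ℝ) = S.card * 2^b / 2 := by
  have h := sum_stp b k S (fun _ => 1)
  rw [sum_testBit] at h
  simp only [Finset.sum_const, nsmul_eq_mul, mul_one] at h
  rw [← Finset.sum_mul, sum_rad b k hk] at h
  simp only [Finset.card_range] at h
  rw [h]
  push_cast
  ring

/-- mass of a set of dyadic indices -/
noncomputable def mass (Φ : ℝ → ℝ) (B : ℕ) (S : Finset ℕ) : ℝ := 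
  ∑ i ∈ S, (Φ (((i:ℝ)+1)/2^B) - Φ ((i:ℝ)/2^B))

lemma mass_split (Φ : ℝ → ℝ) (B b : ℕ) (S : Finset ℕ) :
    mass Φ B S = ∑ j ∈ Finset.range (2^b), ∑ i ∈ S, 
      (Φ ((((i * 2^b + j : ℕ):ℝ)+1)/2^(B+b)) - Φ (((i * 2^b + j : ℕ):ℝ)/2^(B+b))) := by
  rw [Finset.sum_comm]
  unfold mass
  refine Finset.sum_congr rfl fun i _ => ?_
  have h := Finset.sum_range_sub (fun j => Φ (((i * 2^b + j : ℕ):ℝ)/2^(B+b))) (2^b)
  have e1 : ∀ j ∈ Finset.range (2^b), (Φ ((((i * 2^b + j : ℕ):ℝ)+1)/2^(B+b)) - Φ (((i * 2^b + j : ℕ):ℝ)/2^(B+b))) 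
     = Φ (((i * 2^b + (j+1) : ℕ):ℝ)/2^(B+b)) - Φ (((i * 2^b + j : ℕ):ℝ)/2^(B+b)) := by
    intro j _
    push_cast
    ring_nf
  rw [Finset.sum_congr rfl e1, h]
  congr 1
  · congr 1
    push_cast
    rw [pow_add]
    field_simp
  · congr 1
    push_cast
    rw [pow_add]
    field_simp
    ring

lemma jump_card (Φ : ℝ → ℝ) (h0 : ∀ x y, 0 ≤ x → x ≤ y → 0 ≤ Φ y - Φ x) (h1 : ∀ x y, 0 ≤ x → x ≤ y → Φ y - Φ x ≤ y - x)
    (B b n : ℕ) (S : Finset ℕ) (hS : (S.card : ℝ) * 2^n = 2^B) (δ : ℝ) (hδ : 0 ≤ δ) :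
    (((Finset.range b).filter (fun k => δ < 2^(n+1) * mass Φ (B+b) (stp b k S) - 2^n * mass Φ B S)).card : ℝ) * δ^2 ≤ 1 := by
  set a : ℕ → ℝ := fun j => ∑ i ∈ S, 
      (Φ ((((i * 2^b + j : ℕ):ℝ)+1)/2^(B+b)) - Φ (((i * 2^b + j : ℕ):ℝ)/2^(B+b))) with ha
  set c : ℕ → ℝ := fun k => ∑ j ∈ Finset.range (2^b), rad k j * a j with hc
  have hM : mass Φ B S = ∑ j ∈ Finset.range (2^b), a j := mass_split Φ B b S
  have hMk : ∀ k, mass Φ (B+b) (stp b k S) = (1/2) * (mass Φ B S + c k) := by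
    intro k
    rw [hM]
    unfold mass
    rw [sum_stp, ← sum_testBit]
  have hck : ∀ k, 2^(n+1) * mass Φ (B+b) (stp b k S) - 2^n * mass Φ B S = 2^n * c k := by
    intro k
    rw [hMk, pow_succ]
    ring
  have ha0 : ∀ j, 0 ≤ a j := by
    intro j
    refine Finset.sum_nonneg fun i _ => h0 _ _ (by positivity) ?_
    gcongr
    linarith
  have ha1 : ∀ j, a j ≤ (2^n)⁻¹ * (2^b)⁻¹ := by
    intro j
    calc a j ≤ ∑ i ∈ S, (1:ℝ)/2^(B+b) := by
          refine Finset.sum_le_sum fun i _ => ?_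
          refine (h1 _ _ (by positivity) ?_).trans_eq ?_
          · gcongr
            linarith
          · ring
      _ = S.card * (1/2^(B+b)) := by rw [Finset.sum_const, nsmul_eq_mul]
      _ = (2^n)⁻¹ * (2^b)⁻¹ := by
          rw [pow_add]
          have hB : (2:ℝ)^B ≠ 0 := by positivity
          have hn : (2:ℝ)^n ≠ 0 := by positivity
          have : (S.card : ℝ) = 2^B / 2^n := by rw [← hS]; field_simp
          rw [this]
          field_simp
  have hbes := bessel b a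
  have hsq : ∑ j ∈ Finset.range (2^b), (a j)^2 ≤ 2^b * ((2^n)⁻¹ * (2^b)⁻¹)^2 := by
    calc ∑ j ∈ Finset.range (2^b), (a j)^2 ≤ ∑ j ∈ Finset.range (2^b), ((2^n)⁻¹ * (2^b)⁻¹)^2 := by
          refine Finset.sum_le_sum fun j _ => ?_
          exact pow_le_pow_left₀ (ha0 j) (ha1 j) 2
      _ = _ := by rw [Finset.sum_const, Finset.card_range, nsmul_eq_mul]; push_cast; ring
  have htot : ∑ k ∈ Finset.range b, (2^n * c k)^2 ≤ 1 := by
    have e : ∀ k ∈ Finset.range b, (2^n * c k)^2 = (2^n)^2 * (c k)^2 := by intro k _; ring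
    rw [Finset.sum_congr rfl e, ← Finset.mul_sum]
    calc (2^n)^2 * ∑ k ∈ Finset.range b, (c k)^2 ≤ (2^n)^2 * (2^b * (2^b * ((2^n)⁻¹ * (2^b)⁻¹)^2)) := by
          gcongr
          exact hbes.trans (by gcongr)
      _ = 1 := by field_simp
  calc (((Finset.range b).filter (fun k => δ < 2^(n+1) * mass Φ (B+b) (stp b k S) - 2^n * mass Φ B S)).card : ℝ) * δ^2
      = ∑ k ∈ (Finset.range b).filter (fun k => δ < 2^(n+1) * mass Φ (B+b) (stp b k S) - 2^n * mass Φ B S), δ^2 := by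
        rw [Finset.sum_const, nsmul_eq_mul]
    _ ≤ ∑ k ∈ (Finset.range b).filter (fun k => δ < 2^(n+1) * mass Φ (B+b) (stp b k S) - 2^n * mass Φ B S), (2^n * c k)^2 := by
        refine Finset.sum_le_sum fun k hk => ?_
        rw [Finset.mem_filter] at hk
        have := hk.2
        rw [hck] at this
        exact pow_le_pow_left₀ hδ this.le 2
    _ ≤ ∑ k ∈ Finset.range b, (2^n * c k)^2 := 
        Finset.sum_le_sum_of_subset_of_nonneg (Finset.filter_subset _ _) (fun _ _ _ => sq_nonneg _)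
    _ ≤ 1 := htot

end bits

section geom

/-- starting digit position of block `n` -/
def Bs (b : ℕ → ℕ) (n : ℕ) : ℕ := ∑ i ∈ Finset.range n, b i

lemma Bs_succ (b : ℕ → ℕ) (n : ℕ) : Bs b (n+1) = Bs b n + b n := Finset.sum_range_succ _ _

/-- the dyadic indices selected by `F` up to block `n` -/
noncomputable def Sd (b F : ℕ → ℕ) : ℕ → Finset ℕ
  | 0 => {0}
  | n+1 => stp (b n) (F n) (Sd b F n)

lemma Sd_card (b F : ℕ → ℕ) (hF : ∀ n, F n < b n) (n : ℕ) :
    ((Sd b F n).card : ℝ) * 2^n = 2^(Bs b n) := by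
  induction n with
  | zero => simp [Sd, Bs]
  | succ n ih =>
    have e : (2:ℝ)^(Bs b (n+1)) = 2^(Bs b n) * 2^(b n) := by rw [Bs_succ, pow_add]
    rw [Sd, card_stp _ _ (hF n), e, ← ih, pow_succ]
    ring

/-- closed dyadic interval -/
def idy (B m : ℕ) : Set ℝ := Icc ((m:ℝ)/2^B) (((m:ℝ)+1)/2^B)

/-- the closed set at stage `n` -/
noncomputable def Cd (b F : ℕ → ℕ) (n : ℕ) : Set ℝ := ⋃ i ∈ Sd b F n, idy (Bs b n) i

lemma Cd_closed (b F : ℕ → ℕ) (n : ℕ) : IsClosed (Cd b F n) := 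
  Set.Finite.isClosed_biUnion (Finset.finite_toSet _) (fun _ _ => isClosed_Icc)

lemma Cd_zero (b F : ℕ → ℕ) : Cd b F 0 = Icc 0 1 := by
  simp [Cd, Sd, idy, Bs]

lemma idy_sub (B b i j : ℕ) (hj : j < 2^b) : idy (B+b) (i * 2^b + j) ⊆ idy B i := by
  unfold idy
  apply Icc_subset_Icc
  · rw [pow_add, div_le_div_iff₀ (by positivity) (by positivity)]
    push_cast
    have : (0:ℝ) ≤ j := by positivity
    have h2 : (0:ℝ) < 2^B := by positivity
    nlinarith
  · rw [pow_add, div_le_div_iff₀ (by positivity) (by positivity)]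
    push_cast
    have h1 : (j:ℝ) + 1 ≤ 2^b := by exact_mod_cast hj
    have h2 : (0:ℝ) < 2^B := by positivity
    nlinarith

lemma Cd_succ_sub (b F : ℕ → ℕ) (n : ℕ) : Cd b F (n+1) ⊆ Cd b F n := by
  intro x hx
  simp only [Cd, mem_iUnion] at hx ⊢
  obtain ⟨m, hm, hx⟩ := hx
  rw [Sd, mem_stp] at hm
  obtain ⟨i, hi, j, hj, _, rfl⟩ := hm
  refine ⟨i, hi, ?_⟩
  rw [Bs_succ] at hx
  exact idy_sub _ _ _ _ hj hx

lemma Cd_antitone (b F : ℕ → ℕ) : Antitone (Cd b F) := antitone_nat_of_succ_le (Cd_succ_sub b F)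

lemma Cd_sub (b F : ℕ → ℕ) (n : ℕ) : Cd b F n ⊆ Icc 0 1 := by
  rw [← Cd_zero b F]; exact Cd_antitone b F (Nat.zero_le n)

/-- the countable set on which the function will be non zero -/
def Qd (b F : ℕ → ℕ) (x : ℝ) : Set ℝ := {q | ∃ n : ℕ, ∃ z : ℤ, q = x + z / 2^(Bs b n) ∧ q ∈ Cd b F n}

lemma Bs_mono (b : ℕ → ℕ) : Monotone (Bs b) := by
  apply monotone_nat_of_le_succ
  intro n
  rw [Bs_succ]
  omega

lemma Qd_sub (b F : ℕ → ℕ) (x : ℝ) (m : ℕ) : 
    Qd b F x ⊆ Cd b F m ∪ ({q | ∃ z : ℤ, q = x + z / 2^(Bs b m)} ∩ Icc 0 1) := by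
  rintro q ⟨n, z, hq, hC⟩
  rcases le_total m n with h | h
  · left; exact Cd_antitone b F h hC
  · right
    refine ⟨⟨z * 2^(Bs b m - Bs b n), ?_⟩, Cd_sub b F n hC⟩
    have hB := Bs_mono b h
    rw [hq]
    push_cast
    congr 1
    rw [div_eq_div_iff (by positivity) (by positivity)]
    have : (2:ℝ)^(Bs b m) = 2^(Bs b m - Bs b n) * 2^(Bs b n) := by
      rw [← pow_add]; congr 1; omega
    rw [this]
    ring

lemma Qd_countable (b F : ℕ → ℕ) (x : ℝ) : (Qd b F x).Countable := by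
  have : Qd b F x ⊆ range (fun p : ℕ × ℤ => x + (p.2 : ℝ) / 2^(Bs b p.1)) := by
    rintro q ⟨n, z, hq, _⟩
    exact ⟨(n, z), hq.symm⟩
  exact (countable_range _).mono this

lemma vol_thick (b F : ℕ → ℕ) (hF : ∀ n, F n < b n) (x : ℝ) (m : ℕ) (δ : ℝ) (hδ : δ = 1 / (2^(Bs b m) * 2^m)) :
    volume (⋃ q ∈ Qd b F x, Icc (q - δ) (q + δ)) ≤ ENNReal.ofReal (7 * (1/2)^m) := by
  classical
  set B := Bs b m with hB
  have hδ0 : 0 ≤ δ := by rw [hδ]; positivity
  set E1 : Set ℝ := ⋃ i ∈ Sd b F m, Icc ((i:ℝ)/2^B - δ) (((i:ℝ)+1)/2^B + δ) with hE1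
  set Z : Finset ℤ := Finset.Icc ⌈-x * 2^B⌉ ⌊(1-x) * 2^B⌋ with hZ
  set E2 : Set ℝ := ⋃ z ∈ Z, Icc (x + (z:ℝ)/2^B - δ) (x + (z:ℝ)/2^B + δ) with hE2
  have hsub : (⋃ q ∈ Qd b F x, Icc (q - δ) (q + δ)) ⊆ E1 ∪ E2 := by
    refine iUnion₂_subset fun q hq => ?_
    rcases Qd_sub b F x m hq with h | ⟨⟨z, hz⟩, h⟩
    · simp only [Cd, mem_iUnion] at h
      obtain ⟨i, hi, h1, h2⟩ := h
      intro y hy
      left
      refine mem_iUnion₂.2 ⟨i, hi, ?_⟩
      exact ⟨by linarith [hy.1, hy.2], by linarith [hy.1, hy.2]⟩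
    · intro y hy
      right
      refine mem_iUnion₂.2 ⟨z, ?_, by rwa [← hz]⟩
      rw [hZ, Finset.mem_Icc, Int.ceil_le, Int.le_floor]
      have hpos : (0:ℝ) < 2^B := by positivity
      rw [hz] at h
      obtain ⟨h1, h2⟩ := h
      have e : (z:ℝ) = (z:ℝ)/2^B * 2^B := by field_simp
      constructor
      · rw [e]; nlinarith
      · rw [e]; nlinarith
  have hv1 : volume E1 ≤ ENNReal.ofReal (3 * (1/2)^m) := by
    calc volume E1 ≤ ∑ i ∈ Sd b F m, volume (Icc ((i:ℝ)/2^B - δ) (((i:ℝ)+1)/2^B + δ)) := 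
          measure_biUnion_finset_le _ _
      _ = ∑ i ∈ Sd b F m, ENNReal.ofReal (1/2^B + 2*δ) := by
          refine Finset.sum_congr rfl fun i _ => ?_
          rw [Real.volume_Icc]
          congr 1
          ring
      _ = ENNReal.ofReal ((Sd b F m).card * (1/2^B + 2*δ)) := by
          rw [Finset.sum_const, nsmul_eq_mul, ENNReal.ofReal_mul (by positivity), 
            ENNReal.ofReal_natCast]
      _ ≤ _ := by
          apply ENNReal.ofReal_le_ofReal
          have hc := Sd_card b F hF m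
          rw [← hB] at hc
          have h2 : (0:ℝ) < 2^m := by positivity
          have h3 : (0:ℝ) < 2^B := by positivity
          have hc' : ((Sd b F m).card : ℝ) = 2^B / 2^m := by rw [← hc]; field_simp
          rw [hc', hδ]
          have : (2:ℝ)^B / 2^m * (1/2^B + 2 * (1 / (2^B * 2^m))) = 1/2^m * (1 + 2 * (1/2^m)) := by
            field_simp
          rw [this]
          have h4 : (1:ℝ)/2^m ≤ 1 := by
            rw [div_le_one h2]; exact one_le_pow₀ (by norm_num)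
          have h5 : (1/2:ℝ)^m = 1/2^m := by rw [div_pow, one_pow]
          rw [h5]
          have h6 : (0:ℝ) < 1/2^m := by positivity
          nlinarith
  have hv2 : volume E2 ≤ ENNReal.ofReal (4 * (1/2)^m) := by
    calc volume E2 ≤ ∑ z ∈ Z, volume (Icc (x + (z:ℝ)/2^B - δ) (x + (z:ℝ)/2^B + δ)) := 
          measure_biUnion_finset_le _ _
      _ = ∑ z ∈ Z, ENNReal.ofReal (2*δ) := by
          refine Finset.sum_congr rfl fun i _ => ?_
          rw [Real.volume_Icc]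
          congr 1
          ring
      _ = ENNReal.ofReal (Z.card * (2*δ)) := by
          rw [Finset.sum_const, nsmul_eq_mul, ENNReal.ofReal_mul (p := (Z.card : ℝ)) (by positivity), 
            ENNReal.ofReal_natCast]
      _ ≤ _ := by
          apply ENNReal.ofReal_le_ofReal
          have h2 : (0:ℝ) < 2^m := by positivity
          have h3 : (1:ℝ) ≤ 2^B := one_le_pow₀ (by norm_num)
          have hcard : (Z.card : ℝ) ≤ 2^B + 1 := by
            rw [hZ, Int.card_Icc]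
            have h4 : ((⌊(1-x) * 2^B⌋ + 1 - ⌈-x * 2^B⌉ : ℤ) : ℝ) ≤ 2^B + 1 := by
              push_cast
              have h5 := Int.floor_le ((1-x) * 2^B)
              have h6 := Int.le_ceil (-x * 2^B)
              linarith
            rcases le_total 0 (⌊(1-x) * 2^B⌋ + 1 - ⌈-x * 2^B⌉) with h | h
            · have : (((⌊(1-x) * 2^B⌋ + 1 - ⌈-x * 2^B⌉).toNat : ℤ) : ℝ) ≤ 2^B+1 := by
                rw [Int.toNat_of_nonneg h]
                exact h4
              exact_mod_cast this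
            · rw [Int.toNat_of_nonpos h]
              push_cast
              positivity
          calc (Z.card : ℝ) * (2*δ) ≤ (2^B+1) * (2*δ) := by gcongr
            _ ≤ (2 * 2^B) * (2*δ) := by gcongr; linarith
            _ = 4 * (1/2)^m := by
              rw [hδ, div_pow, one_pow]
              field_simp
              norm_num
  calc volume (⋃ q ∈ Qd b F x, Icc (q - δ) (q + δ)) ≤ volume (E1 ∪ E2) := measure_mono hsub
    _ ≤ volume E1 + volume E2 := measure_union_le _ _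
    _ ≤ ENNReal.ofReal (3 * (1/2)^m) + ENNReal.ofReal (4 * (1/2)^m) := add_le_add hv1 hv2
    _ = ENNReal.ofReal (7 * (1/2)^m) := by
      rw [← ENNReal.ofReal_add (by positivity) (by positivity)]
      congr 1
      ring

/-- points of `Qd` accumulate at every point of the closed set -/
lemma Qd_near (b F : ℕ → ℕ) (x t : ℝ) (n : ℕ) (ht : t ∈ Cd b F n) :
    ∃ q ∈ Qd b F x, |q - t| ≤ 1/2^(Bs b n) := by
  simp only [Cd, mem_iUnion] at ht
  obtain ⟨i, hi, h1, h2⟩ := ht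
  have hpos : (0:ℝ) < 2^(Bs b n) := by positivity
  set z : ℤ := ⌈((i:ℝ)/2^(Bs b n) - x) * 2^(Bs b n)⌉ with hz
  have h3 : (i:ℝ)/2^(Bs b n) ≤ x + z/2^(Bs b n) := by
    have := Int.le_ceil (((i:ℝ)/2^(Bs b n) - x) * 2^(Bs b n))
    rw [← le_div_iff₀ hpos] at this
    linarith
  have h4 : x + z/2^(Bs b n) ≤ ((i:ℝ)+1)/2^(Bs b n) := by
    have := (Int.ceil_lt_add_one (((i:ℝ)/2^(Bs b n) - x) * 2^(Bs b n))).le
    rw [← hz] at this
    have h5 : (z:ℝ)/2^(Bs b n) ≤ ((i:ℝ)/2^(Bs b n) - x) + 1/2^(Bs b n) := by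
      rw [div_le_iff₀ hpos, add_mul]
      have : (1:ℝ)/2^(Bs b n) * 2^(Bs b n) = 1 := by field_simp
      linarith
    have h6 : ((i:ℝ)+1)/2^(Bs b n) = (i:ℝ)/2^(Bs b n) + 1/2^(Bs b n) := by ring
    linarith
  refine ⟨x + z/2^(Bs b n), ⟨n, z, rfl, ?_⟩, ?_⟩
  · simp only [Cd, mem_iUnion]
    exact ⟨i, hi, h3, h4⟩
  · have h6 : ((i:ℝ)+1)/2^(Bs b n) = (i:ℝ)/2^(Bs b n) + 1/2^(Bs b n) := by ring
    rw [abs_le]
    constructor <;> linarith

end geom

section decode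

variable {Γ : Type u}

lemma Bs_ge (b : ℕ → ℕ) (hb : ∀ n, 0 < b n) (n : ℕ) : n ≤ Bs b n := by
  induction n with
  | zero => simp
  | succ n ih => rw [Bs_succ]; have := hb n; omega

lemma union_null (hW : WeakLebesgueProperty (lp (fun _ : Γ => ℝ) 2)) (b : ℕ → ℕ) (F : Γ → ℕ → ℕ)
    (hF : ∀ γ n, F γ n < b n) (x : Γ → ℝ) (hx : ∀ γ γ', (∃ q : ℚ, x γ - x γ' = q) → γ = γ') :
    volume (⋃ γ, ⋂ n, Cd b (F γ) n) = 0 := by
  classical
  let c : Icc (0:ℝ) 1 → Option Γ := fun t => 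
    if h : ∃ γ, (t:ℝ) ∈ Qd b (F γ) (x γ) then some h.choose else none
  have hc : ∀ t γ, c t = some γ ↔ (t:ℝ) ∈ Qd b (F γ) (x γ) := by
    intro t γ
    constructor
    · intro h
      by_cases h' : ∃ γ, (t:ℝ) ∈ Qd b (F γ) (x γ)
      · simp only [c, dif_pos h', Option.some.injEq] at h
        rw [← h]; exact h'.choose_spec
      · simp only [c, dif_neg h'] at h
        exact absurd h (by simp)
    · intro h
      have h' : ∃ γ, (t:ℝ) ∈ Qd b (F γ) (x γ) := ⟨γ, h⟩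
      simp only [c, dif_pos h', Option.some.injEq]
      apply hx
      obtain ⟨n, z, hz, _⟩ := h'.choose_spec
      obtain ⟨n', z', hz', _⟩ := h
      refine ⟨(z':ℚ) / 2^(Bs b n') - (z:ℚ) / 2^(Bs b n), ?_⟩
      push_cast
      linarith
  have hR : RiemannIntegrable (fc c) := by
    refine ⟨0, riemann_fc c ?_⟩
    intro ε hε
    obtain ⟨m, hm⟩ := exists_pow_lt_of_lt_one (show 0 < ε/7 by positivity) (show (1/2:ℝ) < 1 by norm_num)
    refine ⟨1 / (2^(Bs b m) * 2^m), by positivity, fun γ => ?_⟩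
    have h1 := vol_thick b (F γ) (hF γ) (x γ) m _ rfl
    refine (measure_mono ?_).trans (h1.trans (ENNReal.ofReal_le_ofReal (by linarith)))
    refine iUnion₂_subset fun t ht => ?_
    rw [hc] at ht
    exact subset_iUnion₂_of_subset (t:ℝ) ht le_rfl
  refine measure_mono_null ?_ (hW (fc c) hR)
  refine iUnion_subset fun γ => ?_
  intro t ht
  rw [mem_iInter] at ht
  have h01 : t ∈ Icc (0:ℝ) 1 := Cd_sub b (F γ) 0 (ht 0)
  refine ⟨h01, fun hcont => ?_⟩
  rw [weaklyContinuousAt_iff] at hcont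
  have h1 := hcont (coordL γ)
  simp only [coordL_apply, fc_apply] at h1
  obtain ⟨r, hr, H⟩ := Metric.continuousAt_iff.1 h1 (1/2) (by norm_num)
  have hb : ∀ n, 0 < b n := fun n => (Nat.zero_le _).trans_lt (hF γ n)
  -- a point of Q
  obtain ⟨n, hn⟩ := exists_pow_lt_of_lt_one hr (show (1/2:ℝ) < 1 by norm_num)
  obtain ⟨q, hq, hqt⟩ := Qd_near b (F γ) (x γ) t n (ht n)
  have hq01 : q ∈ Icc (0:ℝ) 1 := by
    obtain ⟨n', _, _, h⟩ := hq
    exact Cd_sub b _ n' h
  have hqr : |q - t| < r := by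
    refine hqt.trans_lt (lt_of_le_of_lt ?_ hn)
    rw [div_pow, one_pow]
    apply one_div_le_one_div_of_le (by positivity)
    exact pow_le_pow_right₀ (by norm_num) (Bs_ge b hb n)
  have e1 := H (show dist (⟨q, hq01⟩ : Icc (0:ℝ) 1) ⟨t, h01⟩ < r by
    rw [Subtype.dist_eq, Real.dist_eq]; exact hqr)
  rw [if_pos ((hc _ _).2 hq)] at e1
  -- a point not in Q
  have hlt : max 0 (t - r) < min 1 (t + r) := by
    rw [max_lt_iff, lt_min_iff, lt_min_iff]
    refine ⟨⟨by norm_num, by linarith [h01.1]⟩, by linarith [h01.2], by linarith⟩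
  obtain ⟨p, hp, hpQ⟩ := (Set.Countable.dense_compl ℝ (Qd_countable b (F γ) (x γ))).exists_mem_open
    isOpen_Ioo (nonempty_Ioo.2 hlt)
  have hp1 : max 0 (t - r) < p := hpQ.1
  have hp2 : p < min 1 (t + r) := hpQ.2
  rw [max_lt_iff] at hp1
  rw [lt_min_iff] at hp2
  have e2 := H (show dist (⟨p, ⟨hp1.1.le, hp2.1.le⟩⟩ : Icc (0:ℝ) 1) ⟨t, h01⟩ < r by
    rw [Subtype.dist_eq, Real.dist_eq, abs_lt]
    constructor <;> simp only <;> linarith)
  rw [if_neg (fun h => hp ((hc _ _).1 h))] at e2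
  rw [Real.dist_eq, abs_lt] at e1 e2
  linarith

/-- the possible index sets after `n` blocks -/
noncomputable def Td (b : ℕ → ℕ) : ℕ → Finset (Finset ℕ)
  | 0 => {{0}}
  | n+1 => (Td b n ×ˢ Finset.range (b n)).image (fun p => stp (b n) p.2 p.1)

lemma Sd_mem_Td (b F : ℕ → ℕ) (hF : ∀ n, F n < b n) (n : ℕ) : Sd b F n ∈ Td b n := by
  induction n with
  | zero => simp [Sd, Td]
  | succ n ih =>
    rw [Sd, Td, Finset.mem_image]
    exact ⟨(Sd b F n, F n), Finset.mem_product.2 ⟨ih, Finset.mem_range.2 (hF n)⟩, rfl⟩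

lemma card_Td (b : ℕ → ℕ) (n : ℕ) : (Td b n).card ≤ ∏ i ∈ Finset.range n, b i := by
  induction n with
  | zero => simp [Td]
  | succ n ih =>
    rw [Td, Finset.prod_range_succ]
    refine Finset.card_image_le.trans ?_
    rw [Finset.card_product, Finset.card_range]
    exact Nat.mul_le_mul_right _ ih

lemma Td_card (b : ℕ → ℕ) (n : ℕ) (S : Finset ℕ) (hS : S ∈ Td b n) : 
    (S.card : ℝ) * 2^n = 2^(Bs b n) := by
  induction n generalizing S with
  | zero =>
    rw [Td, Finset.mem_singleton] at hS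
    subst hS
    simp [Bs]
  | succ n ih =>
    rw [Td, Finset.mem_image] at hS
    obtain ⟨⟨S', k⟩, hm, rfl⟩ := hS
    rw [Finset.mem_product, Finset.mem_range] at hm
    have e : (2:ℝ)^(Bs b (n+1)) = 2^(Bs b n) * 2^(b n) := by rw [Bs_succ, pow_add]
    rw [card_stp _ _ hm.2, e, ← ih S' hm.1, pow_succ]
    ring

/-- the finite set of candidates at block `n` -/
noncomputable def Wd (b : ℕ → ℕ) (Φ : ℝ → ℝ) (n : ℕ) : Finset ℕ :=
  (Td b n).biUnion (fun S => (Finset.range (b n)).filter (fun k => 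
    (1/2)^(n+2) < 2^(n+1) * mass Φ (Bs b n + b n) (stp (b n) k S) - 2^n * mass Φ (Bs b n) S))

lemma card_Wd (b : ℕ → ℕ) (Φ : ℝ → ℝ) (h0 : ∀ x y, 0 ≤ x → x ≤ y → 0 ≤ Φ y - Φ x) 
    (h1 : ∀ x y, 0 ≤ x → x ≤ y → Φ y - Φ x ≤ y - x) (n : ℕ) :
    (Wd b Φ n).card ≤ (∏ i ∈ Finset.range n, b i) * 4^(n+2) := by
  refine Finset.card_biUnion_le.trans ?_
  refine (Finset.sum_le_card_nsmul _ _ (4^(n+2)) ?_).trans ?_
  · intro S hS
    have h := jump_card Φ h0 h1 (Bs b n) (b n) n S (Td_card b n S hS) ((1/2)^(n+2)) (by positivity)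
    have e : (((1:ℝ)/2)^(n+2))^2 = 1 / 4^(n+2) := by
      rw [← pow_mul, mul_comm, pow_mul, div_pow, one_pow, div_pow, one_pow]
      norm_num
    rw [e, mul_one_div, div_le_one (by positivity)] at h
    exact_mod_cast h
  · rw [smul_eq_mul]
    exact Nat.mul_le_mul_right _ (card_Td b n)

lemma exists_jump (b F : ℕ → ℕ) (hF : ∀ n, F n < b n) (Φ : ℝ → ℝ) (h00 : Φ 1 - Φ 0 < 1/2)
    (U : Set ℝ) (hU : IsOpen U) (h2 : ∀ x y, 0 ≤ x → x ≤ y → Ioc x y ⊆ U → Φ y - Φ x = y - x)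
    (hC : (⋂ n, Cd b F n) ⊆ U) : ∃ n, F n ∈ Wd b Φ n := by
  by_contra hcon
  push Not at hcon
  -- the masses grow slowly
  have hstep : ∀ n, 2^(n+1) * mass Φ (Bs b (n+1)) (Sd b F (n+1)) ≤ 
      2^n * mass Φ (Bs b n) (Sd b F n) + (1/2)^(n+2) := by
    intro n
    by_contra h
    push Not at h
    apply hcon n
    rw [Wd, Finset.mem_biUnion]
    refine ⟨Sd b F n, Sd_mem_Td b F hF n, ?_⟩
    rw [Finset.mem_filter, Finset.mem_range]
    refine ⟨hF n, ?_⟩
    rw [Bs_succ, Sd] at h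
    linarith
  have hall : ∀ n, 2^n * mass Φ (Bs b n) (Sd b F n) ≤ (Φ 1 - Φ 0) + (1/2) * (1 - (1/2)^n) := by
    intro n
    induction n with
    | zero => simp [mass, Sd, Bs]
    | succ n ih =>
      refine (hstep n).trans ?_
      have : (1/2:ℝ)^(n+2) = (1/2)^n * (1/4) := by rw [pow_add]; norm_num
      rw [this, pow_succ]
      linarith
  -- eventually the closed set is inside U
  have hsub : ∃ n, Cd b F n ⊆ U := by
    by_contra h
    push Not at h
    have hne : (⋂ n, (Cd b F n ∩ Uᶜ)).Nonempty := by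
      apply IsCompact.nonempty_iInter_of_sequence_nonempty_isCompact_isClosed
      · intro n
        exact inter_subset_inter_left _ (Cd_succ_sub b F n)
      · intro n
        obtain ⟨y, hy, hyU⟩ := not_subset.1 (h n)
        exact ⟨y, hy, hyU⟩
      · rw [Cd_zero]
        exact isCompact_Icc.inter_right hU.isClosed_compl
      · intro n
        exact (Cd_closed b F n).inter hU.isClosed_compl
    obtain ⟨y, hy⟩ := hne
    rw [mem_iInter] at hy
    exact (hy 0).2 (hC (mem_iInter.2 fun n => (hy n).1))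
  obtain ⟨n, hn⟩ := hsub
  have hfull : 2^n * mass Φ (Bs b n) (Sd b F n) = 1 := by
    unfold mass
    have : ∀ i ∈ Sd b F n, Φ (((i:ℝ)+1)/2^(Bs b n)) - Φ ((i:ℝ)/2^(Bs b n)) = 1/2^(Bs b n) := by
      intro i hi
      rw [h2 _ _ (by positivity) (by gcongr; linarith)]
      · ring
      · refine Ioc_subset_Icc_self.trans (Subset.trans ?_ hn)
        exact subset_biUnion_of_mem (u := fun i => idy (Bs b n) i) hi
    rw [Finset.sum_congr rfl this, Finset.sum_const, nsmul_eq_mul]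
    have hc := Sd_card b F hF n
    have h3 : (0:ℝ) < 2^(Bs b n) := by positivity
    field_simp
    linarith
  have h4 := hall n
  rw [hfull] at h4
  have h5 : (0:ℝ) < (1/2)^n := by positivity
  linarith

end decode

section final

/-- the subgroup of rational reals -/
noncomputable def ratSub : AddSubgroup ℝ := ((Rat.castHom ℝ : ℚ →+* ℝ) : ℚ →+ ℝ).range

lemma mk_quot : Cardinal.mk (ℝ ⧸ ratSub) = Cardinal.continuum := by
  have e : Cardinal.mk ℝ = Cardinal.mk (ℝ ⧸ ratSub) * Cardinal.mk ratSub := by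
    rw [Cardinal.mk_congr (AddSubgroup.addGroupEquivQuotientProdAddSubgroup (s := ratSub))]
    rw [Cardinal.mk_prod, Cardinal.lift_id, Cardinal.lift_id]
  have h1 : Cardinal.mk ratSub ≤ Cardinal.aleph0 := by
    rw [Cardinal.mk_le_aleph0_iff]
    have : (ratSub : Set ℝ).Countable := by
      have : (ratSub : Set ℝ) = range ((Rat.castHom ℝ : ℚ →+* ℝ) : ℚ →+ ℝ) := AddMonoidHom.coe_range _
      rw [this]
      exact countable_range _
    exact this.to_subtype
  have h2 : Cardinal.mk ratSub ≠ 0 := by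
    rw [Cardinal.mk_ne_zero_iff]
    exact ⟨0⟩
  rw [Cardinal.mk_real] at e
  by_cases h : Cardinal.aleph0 ≤ Cardinal.mk (ℝ ⧸ ratSub)
  · rw [Cardinal.mul_eq_left h (h1.trans h) h2] at e
    exact e.symm
  · push Not at h
    exfalso
    have : Cardinal.mk (ℝ ⧸ ratSub) * Cardinal.mk ratSub ≤ Cardinal.aleph0 := by
      calc _ ≤ Cardinal.aleph0 * Cardinal.aleph0 := mul_le_mul' h.le h1
        _ = Cardinal.aleph0 := Cardinal.aleph0_mul_aleph0
    rw [← e] at this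
    exact absurd this (not_le.2 Cardinal.aleph0_lt_continuum)

variable {Γ : Type u}

lemma exists_reps (hW : WeakLebesgueProperty (lp (fun _ : Γ => ℝ) 2)) :
    ∃ x : Γ → ℝ, ∀ γ γ', (∃ q : ℚ, x γ - x γ' = q) → γ = γ' := by
  rcases Function.Embedding.total Γ (ℝ ⧸ ratSub) with ⟨⟨e⟩⟩ | ⟨⟨e⟩⟩
  · refine ⟨fun γ => Quotient.out (e γ), ?_⟩
    rintro γ γ' ⟨q, hq⟩
    apply e.injective
    have h1 : (QuotientAddGroup.mk (Quotient.out (e γ)) : ℝ ⧸ ratSub) = e γ := Quotient.out_eq _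
    have h2 : (QuotientAddGroup.mk (Quotient.out (e γ')) : ℝ ⧸ ratSub) = e γ' := Quotient.out_eq _
    rw [← h1, ← h2, eq_comm, QuotientAddGroup.eq]
    have h3 : -(Quotient.out (e γ') : ℝ) + Quotient.out (e γ) ∈ 
        (((Rat.castHom ℝ : ℚ →+* ℝ) : ℚ →+ ℝ).range) := by
      refine AddMonoidHom.mem_range.2 ⟨q, ?_⟩
      change (q:ℝ) = _
      rw [← hq]
      ring
    exact h3
  · exfalso
    have h1 : Cardinal.mk (Icc (0:ℝ) 1) ≤ Cardinal.mk (ℝ ⧸ ratSub) := by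
      rw [mk_quot, ← Cardinal.mk_real]
      exact Cardinal.mk_subtype_le _
    obtain ⟨g⟩ := (Cardinal.le_def _ _).1 h1
    exact not_wlp_of_emb (g.trans e) hW

/-- number of slots at block `n` -/
def slots (n P : ℕ) : ℕ := P * 4^(n+2)

/-- precision used at block `n` -/
noncomputable def prec (ε : ℕ → ℝ) (n P : ℕ) : ℝ :=
  (Finset.range (slots n P + 1)).inf' (Finset.nonempty_range_iff.2 (Nat.succ_ne_zero _))
    (fun e => ε (Nat.pair n e))

lemma prec_pos (ε : ℕ → ℝ) (hε : ∀ n, 0 < ε n) (n P : ℕ) : 0 < prec ε n P := by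
  unfold prec
  rw [Finset.lt_inf'_iff]
  intro e _
  exact hε _

lemma prec_le (ε : ℕ → ℝ) (n P e : ℕ) (he : e ≤ slots n P) : prec ε n P ≤ ε (Nat.pair n e) := by
  unfold prec
  exact Finset.inf'_le (fun e => ε (Nat.pair n e)) (Finset.mem_range.2 (Nat.lt_succ_of_le he))

/-- block length -/
noncomputable def bl (ε : ℕ → ℝ) (n P : ℕ) : ℕ := ⌊1 / prec ε n P⌋₊ + 1

/-- running product of block lengths -/
noncomputable def Pn (ε : ℕ → ℝ) : ℕ → ℕ
  | 0 => 1
  | n+1 => Pn ε n * bl ε n (Pn ε n)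

lemma Pn_eq (ε : ℕ → ℝ) (n : ℕ) : Pn ε n = ∏ i ∈ Finset.range n, bl ε i (Pn ε i) := by
  induction n with
  | zero => simp [Pn]
  | succ n ih => rw [Finset.prod_range_succ, ← ih, Pn]

/-- unit interval version of the decoding theorem -/
lemma smz_unit (hW : WeakLebesgueProperty (lp (fun _ : Γ => ℝ) 2)) (A : Set ℝ) (hA : A ⊆ Icc 0 1)
    (hAΓ : Nonempty (A ↪ Γ)) : StrongMeasureZero A := by
  classical
  intro ε hε
  obtain ⟨j⟩ := hAΓ
  obtain ⟨x, hx⟩ := exists_reps hW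
  set b : ℕ → ℕ := fun n => bl ε n (Pn ε n) with hb
  set η : ℕ → ℝ := fun n => prec ε n (Pn ε n) with hη
  have hηpos : ∀ n, 0 < η n := fun n => prec_pos ε hε n _
  let F : Γ → ℕ → ℕ := fun γ n => if h : ∃ a : A, j a = γ then ⌊(h.choose : ℝ) / η n⌋₊ else 0
  have hF : ∀ γ n, F γ n < b n := by
    intro γ n
    simp only [F]
    split_ifs with h
    · have h1 := hA h.choose.2
      rw [hb]
      simp only [bl]
      apply Nat.lt_succ_of_le
      apply Nat.floor_le_floor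
      exact div_le_div_of_nonneg_right h1.2 (hηpos n).le
    · rw [hb]; simp only [bl]; omega
  have hFj : ∀ (a : A) n, F (j a) n = ⌊(a:ℝ) / η n⌋₊ := by
    intro a n
    have h : ∃ a' : A, j a' = j a := ⟨a, rfl⟩
    simp only [F, dif_pos h]
    rw [j.injective h.choose_spec]
  have hnull := union_null hW b F hF x hx
  -- an open superset of small measure
  obtain ⟨U, hUsub, hUo, hUvol⟩ := Set.exists_isOpen_lt_of_lt (μ := volume) 
    (⋃ γ, ⋂ n, Cd b (F γ) n) (ENNReal.ofReal (1/2)) (by rw [hnull]; simp)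
  set Φ : ℝ → ℝ := fun y => (volume (U ∩ Ioc 0 y)).toReal with hΦ
  have hfin : ∀ x y, volume (U ∩ Ioc x y) ≠ ⊤ := fun x y => 
    ne_top_of_le_ne_top (by rw [Real.volume_Ioc]; exact ENNReal.ofReal_ne_top) (measure_mono inter_subset_right)
  have hdiff : ∀ x y, 0 ≤ x → x ≤ y → Φ y - Φ x = (volume (U ∩ Ioc x y)).toReal := by
    intro x y h0 hxy
    have e : U ∩ Ioc 0 y = (U ∩ Ioc 0 x) ∪ (U ∩ Ioc x y) := by
      rw [← inter_union_distrib_left, Ioc_union_Ioc_eq_Ioc h0 hxy]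
    have hd : Disjoint (U ∩ Ioc 0 x) (U ∩ Ioc x y) := by
      apply Disjoint.mono inter_subset_right inter_subset_right
      rw [Set.disjoint_left]
      intro z hz hz'
      exact absurd hz.2 (not_le.2 hz'.1)
    simp only [hΦ]
    rw [e, measure_union hd (hUo.measurableSet.inter measurableSet_Ioc), ENNReal.toReal_add (hfin _ _) (hfin _ _)]
    ring
  have h0 : ∀ x y, 0 ≤ x → x ≤ y → 0 ≤ Φ y - Φ x := by
    intro x y hx hxy
    rw [hdiff x y hx hxy]
    exact ENNReal.toReal_nonneg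
  have h1 : ∀ x y, 0 ≤ x → x ≤ y → Φ y - Φ x ≤ y - x := by
    intro x y hx hxy
    rw [hdiff x y hx hxy]
    have : volume (U ∩ Ioc x y) ≤ ENNReal.ofReal (y - x) := by
      rw [← Real.volume_Ioc]; exact measure_mono inter_subset_right
    exact ENNReal.toReal_le_of_le_ofReal (by linarith) this
  have h2 : ∀ x y, 0 ≤ x → x ≤ y → Ioc x y ⊆ U → Φ y - Φ x = y - x := by
    intro x y hx hxy hU
    rw [hdiff x y hx hxy, inter_eq_right.2 hU, Real.volume_Ioc, ENNReal.toReal_ofReal (by linarith)]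
  have h00 : Φ 1 - Φ 0 < 1/2 := by
    rw [hdiff 0 1 le_rfl zero_le_one]
    have : volume (U ∩ Ioc 0 1) < ENNReal.ofReal (1/2) := (measure_mono inter_subset_left).trans_lt hUvol
    rw [← ENNReal.toReal_ofReal (show (0:ℝ) ≤ 1/2 by norm_num)]
    exact (ENNReal.toReal_lt_toReal (hfin _ _) ENNReal.ofReal_ne_top).2 this
  have hjump : ∀ a : A, ∃ n, ⌊(a:ℝ) / η n⌋₊ ∈ Wd b Φ n := by
    intro a
    obtain ⟨n, hn⟩ := exists_jump b (F (j a)) (hF (j a)) Φ h00 U hUo h2 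
      ((subset_iUnion (fun γ => ⋂ n, Cd b (F γ) n) (j a)).trans hUsub)
    exact ⟨n, by rwa [hFj] at hn⟩
  have hcard : ∀ n, (Wd b Φ n).card ≤ slots n (Pn ε n) := by
    intro n
    refine (card_Wd b Φ h0 h1 n).trans ?_
    rw [slots, Pn_eq]
  -- enumeration of the candidates
  let en : ∀ n, ℕ → ℕ := fun n e => 
    if h : e < (Wd b Φ n).card then ((Wd b Φ n).equivFin.symm ⟨e, h⟩ : ℕ) else 0
  refine ⟨fun m => (en (Nat.unpair m).1 (Nat.unpair m).2 : ℝ) * η (Nat.unpair m).1, ?_⟩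
  intro a ha
  obtain ⟨n, hn⟩ := hjump ⟨a, ha⟩
  set e : Fin (Wd b Φ n).card := (Wd b Φ n).equivFin ⟨_, hn⟩ with he
  refine mem_iUnion.2 ⟨Nat.pair n e, ?_⟩
  have hen : en n e = ⌊a / η n⌋₊ := by
    simp only [en, dif_pos e.2]
    rw [he]
    simp
  simp only [Nat.unpair_pair, hen]
  have ha0 : 0 ≤ a := (hA ha).1
  have hle : η n ≤ ε (Nat.pair n e) := prec_le ε n _ _ (e.2.le.trans (hcard n))
  constructor
  · rw [← le_div_iff₀ (hηpos n)]
    exact Nat.floor_le (div_nonneg ha0 (hηpos n).le)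
  · have h3 := Nat.lt_floor_add_one (a / η n)
    rw [div_lt_iff₀ (hηpos n)] at h3
    linarith

lemma smz_of_wlp (hW : WeakLebesgueProperty (lp (fun _ : Γ => ℝ) 2)) (A : Set ℝ) 
    (hAΓ : Nonempty (A ↪ Γ)) : StrongMeasureZero A := by
  classical
  intro ε hε
  let z : ℕ → ℤ := fun k => Equiv.intEquivNat.symm k
  let Ak : ℕ → Set ℝ := fun k => {y | y ∈ Icc (0:ℝ) 1 ∧ y + z k ∈ A}
  have hemb : ∀ k, Nonempty (Ak k ↪ Γ) := by
    intro k
    obtain ⟨j⟩ := hAΓ
    refine ⟨⟨fun y => j ⟨y + z k, y.2.2⟩, fun y y' h => ?_⟩⟩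
    have := j.injective h
    simp only [Subtype.mk.injEq, add_left_inj] at this
    exact Subtype.ext this
  have hs : ∀ k, ∃ x : ℕ → ℝ, Ak k ⊆ ⋃ n, Icc (x n) (x n + ε (Nat.pair k n)) := fun k =>
    smz_unit hW (Ak k) (fun y hy => hy.1) (hemb k) (fun n => ε (Nat.pair k n)) (fun n => hε _)
  choose x hx using hs
  refine ⟨fun m => x (Nat.unpair m).1 (Nat.unpair m).2 + z (Nat.unpair m).1, ?_⟩
  intro a ha
  obtain ⟨k, hk⟩ : ∃ k, z k = ⌊a⌋ := ⟨Equiv.intEquivNat ⌊a⌋, by simp [z]⟩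
  have hmem : a - z k ∈ Ak k := by
    refine ⟨⟨?_, ?_⟩, by simpa using ha⟩
    · rw [hk]; have := Int.floor_le a; linarith
    · rw [hk]; have := (Int.lt_floor_add_one a).le; linarith
  obtain ⟨n, hn⟩ := mem_iUnion.1 (hx k hmem)
  refine mem_iUnion.2 ⟨Nat.pair k n, ?_⟩
  simp only [Nat.unpair_pair]
  constructor
  · linarith [hn.1]
  · linarith [hn.2]

/-- The Hilbert space `ℓ²(Γ)` has the weak Lebesgue property exactly when the cardinality of `Γ` is
smaller than the least cardinality of a set of reals that is not strong measure zero. -/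
theorem result (Γ : Type u) :
    WeakLebesgueProperty (lp (fun _ : Γ => ℝ) 2) ↔
      Cardinal.lift.{0, u} (Cardinal.mk Γ) < Cardinal.lift.{u, 0} nonSN := by
  constructor
  · intro hW
    by_contra hcon
    push Not at hcon
    have hne : {c | ∃ A : Set ℝ, ¬ StrongMeasureZero A ∧ Cardinal.mk A = c}.Nonempty := by
      refine ⟨Cardinal.mk (univ : Set ℝ), univ, ?_, rfl⟩
      intro hS
      obtain ⟨x, hx⟩ := hS (fun n => (1/2)^(n+2)) (fun n => by positivity)
      have h1 : volume (Icc (0:ℝ) 1) ≤ ∑' n, volume (Icc (x n) (x n + (1/2)^(n+2))) := 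
        (measure_mono ((subset_univ _).trans hx)).trans (measure_iUnion_le _)
      have h2 : ∀ n, volume (Icc (x n) (x n + (1/2)^(n+2))) = ENNReal.ofReal ((1/2)^(n+2)) := by
        intro n
        rw [Real.volume_Icc]; congr 1; ring
      simp only [h2] at h1
      have hsum : Summable (fun n : ℕ => ((1/2:ℝ))^(n+2)) := by
        have := (summable_geometric_two).mul_right ((1/2:ℝ)^2)
        simpa only [pow_add] using this
      rw [← ENNReal.ofReal_tsum_of_nonneg (fun n => by positivity) hsum] at h1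
      have h3 : ∑' n : ℕ, (1/2:ℝ)^(n+2) = 1/2 := by
        have : ∀ n : ℕ, (1/2:ℝ)^(n+2) = (1/2)^n * (1/4) := by intro n; rw [pow_add]; norm_num
        simp only [this]
        rw [tsum_mul_right, tsum_geometric_two]
        norm_num
      rw [h3, Real.volume_Icc] at h1
      rw [ENNReal.ofReal_le_ofReal_iff (by norm_num)] at h1
      norm_num at h1
    obtain ⟨A, hA, hcard⟩ := csInf_mem hne
    apply hA
    apply smz_of_wlp hW A
    have hle : Cardinal.lift.{u, 0} (Cardinal.mk A) ≤ Cardinal.lift.{0, u} (Cardinal.mk Γ) := by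
      rw [hcard]; exact hcon
    exact Cardinal.lift_mk_le'.1 hle
  · intro hlt
    apply wlp_of_SN
    rintro A ⟨e⟩
    by_contra hA
    have h1 : nonSN ≤ Cardinal.mk A := csInf_le' ⟨A, hA, rfl⟩
    have h2 : Cardinal.lift.{u, 0} (Cardinal.mk A) ≤ Cardinal.lift.{0, u} (Cardinal.mk Γ) := 
      Cardinal.lift_mk_le'.2 ⟨e⟩
    have h3 : Cardinal.lift.{u, 0} nonSN ≤ Cardinal.lift.{u, 0} (Cardinal.mk A) := 
      Cardinal.lift_le.2 h1
    exact absurd hlt (not_lt.2 (h3.trans h2))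

end final

end Pool.Agent.Results.MP_abad15_an.HilbertWLP
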